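import Pool.Agent.Helper72.FC.Clip

/-! # `c₀` is approximable by cubes -/

namespace Pool.Agent.Helper72.FC

open Filter Topology Set

set_option linter.unusedSectionVars false

noncomputable section

/-- the Banach space `c₀` -/
abbrev c0 : Type := ZeroAtInftyContinuousMap ℕ ℝ

namespace c0

/-- constructor -/
def mk (f : ℕ → ℝ) (hf : Tendsto f atTop (𝓝 0)) : c0 where
  toFun := f
  continuous_toFun := continuous_of_discreteTopology
  zero_at_infty' := by
    rw [cocompact_eq_cofinite, Nat.cofinite_eq_atTop]
    exact hf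

@[simp] theorem mk_apply (f : ℕ → ℝ) (hf : Tendsto f atTop (𝓝 0)) (n : ℕ) : mk f hf n = f n := rfl

theorem tendsto_zero (x : c0) : Tendsto x atTop (𝓝 0) := by
  have := x.zero_at_infty'
  rw [cocompact_eq_cofinite, Nat.cofinite_eq_atTop] at this
  exact this

theorem dist_le {x y : c0} {C : ℝ} (hC : 0 ≤ C) (h : ∀ n, |x n - y n| ≤ C) : dist x y ≤ C := by
  rw [← ZeroAtInftyContinuousMap.dist_toBCF_eq_dist, BoundedContinuousFunction.dist_le hC]
  intro n
  rw [Real.dist_eq]
  exact h n

theorem abs_sub_le (x y : c0) (n : ℕ) : |x n - y n| ≤ ‖x - y‖ := by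
  rw [← dist_eq_norm, ← ZeroAtInftyContinuousMap.dist_toBCF_eq_dist]
  have := BoundedContinuousFunction.dist_coe_le_dist (f := x.toBCF) (g := y.toBCF) n
  rwa [Real.dist_eq] at this

/-- extension by zero -/
def ext (j : ℕ) (u : Fin j → ℝ) : c0 :=
  mk (fun n => if h : n < j then u ⟨n, h⟩ else 0) (by
    refine tendsto_const_nhds.congr' ?_
    filter_upwards [eventually_ge_atTop j] with n hn
    rw [dif_neg (not_lt.2 hn)])

theorem ext_apply (j : ℕ) (u : Fin j → ℝ) (n : ℕ) :
    ext j u n = if h : n < j then u ⟨n, h⟩ else 0 := rfl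

/-- `c₀` is approximable by cubes. -/
def approx : CubeApprox c0 where
  dim := id
  π := fun j x i => x (i : ℕ)
  J := fun j u => ext j u
  π_lip := fun j x y => by
    rw [pi_norm_le_iff_of_nonneg (norm_nonneg _)]
    intro i
    rw [Pi.sub_apply, Real.norm_eq_abs]
    exact abs_sub_le x y i
  J_lip := fun j u v => by
    rw [← dist_eq_norm]
    apply dist_le (norm_nonneg _)
    intro n
    rw [ext_apply, ext_apply]
    split_ifs with h
    · exact norm_le_pi_norm (u - v) ⟨n, h⟩
    · simp
  π_zero := fun j => by ext i; simp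
  J_zero := fun j => by
    ext n
    rw [ext_apply]
    split_ifs <;> simp
  lim := fun x => by
    rw [Metric.tendsto_atTop]
    intro ε hε
    obtain ⟨K, hK⟩ := (Metric.tendsto_atTop.1 (tendsto_zero x)) (ε / 2) (by positivity)
    refine ⟨K, fun j hj => ?_⟩
    refine lt_of_le_of_lt (dist_le (by positivity : 0 ≤ ε / 2) fun n => ?_) (by linarith)
    rw [ext_apply]
    split_ifs with h
    · simp; positivity
    · have := hK n (by have h' : ¬ n < j := h; omega)
      rw [Real.dist_eq, sub_zero] at this
      rw [zero_sub, abs_neg]; exact this.le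

end c0

end

end Pool.Agent.Helper72.FC
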