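import Pool.Agent.Helper72.FC.Induct

/-! # Reduction to functions of small size, and the abstract obstruction -/

namespace Pool.Agent.Helper72.FC

open Filter Topology ContinuousLinearMap

set_option linter.unusedSectionVars false

noncomputable section

variable {E F : Type} [NormedAddCommGroup E] [NormedSpace ℝ E]
    [NormedAddCommGroup F] [NormedSpace ℝ F] {δ : E → F}

/-- clip to `[-a, a]` -/
def cp (a u : ℝ) : ℝ := max (-a) (min a u)

theorem abs_cp_le {a : ℝ} (ha : 0 ≤ a) (u : ℝ) : |cp a u| ≤ a := by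
  unfold cp
  rw [abs_le]
  exact ⟨le_max_left _ _, max_le (by linarith) (min_le_left _ _)⟩

theorem cp_eq {a u : ℝ} (h : |u| ≤ a) : cp a u = u := by
  unfold cp
  obtain ⟨h1, h2⟩ := abs_le.1 h
  rw [min_eq_right h2, max_eq_right h1]

theorem cp_sub (a b u v : ℝ) : |cp a u - cp b v| ≤ |u - v| + |a - b| := by
  unfold cp
  have h1 := abs_max_sub_max_le_max (-a) (min a u) (-b) (min b v)
  have h2 := abs_min_sub_min_le_max a u b v
  have h3 : |-a - -b| = |a - b| := by rw [← abs_neg]; congr 1; ring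
  rw [h3] at h1
  have h4 : 0 ≤ |u - v| := abs_nonneg _
  have h5 : 0 ≤ |a - b| := abs_nonneg _
  refine h1.trans (max_le (by linarith) (h2.trans (max_le (by linarith) (by linarith))))

/-- the clipped function -/
def hc (d : ℝ) (f : E → ℝ) (x : E) : ℝ := cp (d * ‖x‖) (f x)

theorem hc_size {d : ℝ} (hd : 0 ≤ d) (f : E → ℝ) (x : E) : |hc d f x| ≤ d * ‖x‖ :=
  abs_cp_le (by positivity) _

theorem hc_sub {d : ℝ} (hd : 0 ≤ d) (f : E → ℝ) (x y : E) :
    |hc d f x - hc d f y| ≤ |f x - f y| + d * ‖x - y‖ := by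
  refine (cp_sub _ _ _ _).trans ?_
  rw [← mul_sub, abs_mul, abs_of_nonneg hd]
  have := mul_le_mul_of_nonneg_left (abs_norm_sub_norm_le x y) hd
  linarith

theorem hc_lip {d a : ℝ} (hd : 0 ≤ d) {f : E → ℝ} (hf : Lip a f) : Lip (a + d) (hc d f) := by
  intro x y
  have := hf x y
  have := hc_sub hd f x y
  linarith

variable {f : ℕ → E → ℝ} {μ : ℕ → F} {A B : ℕ → ℝ}

theorem single_lip (hfA : ∀ (s : Finset ℕ) x y, ∑ k ∈ s, |f k x - f k y| ≤ A s.card * ‖x - y‖)
    (k : ℕ) : Lip (A 1) (f k) := fun x y => by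
  simpa using hfA {k} x y

/-- Only finitely many of the `f k` lose mass when clipped at relative height `d`. -/
theorem clip_eventually (hF : IsFree E F δ) (hf0 : ∀ k, f k 0 = 0) (hA0 : ∀ n, 0 ≤ A n)
    (hfA : ∀ (s : Finset ℕ) x y, ∑ k ∈ s, |f k x - f k y| ≤ A s.card * ‖x - y‖)
    (hB : ∀ (s : Finset ℕ) (σ : ℕ → ℝ), (∀ k, |σ k| ≤ 1) → ‖∑ k ∈ s, σ k • μ k‖ ≤ B s.card)
    (hAlim : Tendsto (fun n : ℕ => A n / Real.sqrt n) atTop (𝓝 0))
    (hBlim : Tendsto (fun n : ℕ => B n / n) atTop (𝓝 0))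
    (hone : ∀ k, 1 ≤ pair δ (f k) (μ k)) {d : ℝ} (hd : 0 < d) :
    ∀ᶠ k in atTop, 1 / 2 ≤ pair δ (hc d (f k)) (μ k) := by
  classical
  have ha := hA0 1
  have hflip := single_lip hfA
  -- the overlap number
  obtain ⟨M, hM⟩ : ∃ M : ℕ, ∀ m : ℕ, M < m → A m < d * m := by
    obtain ⟨M, hM⟩ := eventually_atTop.1 (hAlim.eventually (gt_mem_nhds hd))
    refine ⟨M, fun m hm => ?_⟩
    have h1 := hM m hm.le
    have hm1 : (1:ℝ) ≤ m := by
      have : 1 ≤ m := by omega
      exact_mod_cast this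
    have hmpos : 0 < Real.sqrt m := Real.sqrt_pos.2 (by linarith)
    rw [div_lt_iff₀ hmpos] at h1
    have h2 : Real.sqrt m ≤ m := by
      rw [Real.sqrt_le_left (by linarith)]
      nlinarith
    nlinarith
  set v : ℕ → E → ℝ := fun k x => f k x - hc d (f k) x with hv
  have hvlip : ∀ k, Lip (A 1 + (A 1 + d)) (v k) := fun k => (hflip k).sub (hc_lip hd.le (hflip k))
  have hoverlap : ∀ (s : Finset ℕ) (x : E), (s.filter (fun k => v k x ≠ 0)).card ≤ M := by
    intro s x
    by_contra hcon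
    push Not at hcon
    set t := s.filter (fun k => v k x ≠ 0) with ht
    have h1 := hM _ hcon
    have hbig : ∀ k ∈ t, d * ‖x‖ < |f k x| := by
      intro k hk
      by_contra hle
      push Not at hle
      apply (Finset.mem_filter.1 hk).2
      rw [hv]; dsimp only; unfold hc; rw [cp_eq hle, sub_self]
    have hne : t.Nonempty := Finset.card_pos.1 (by omega)
    have hx : x ≠ 0 := by
      rintro rfl
      obtain ⟨k, hk⟩ := hne
      have := hbig k hk
      rw [hf0, norm_zero, mul_zero, abs_zero] at this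
      exact lt_irrefl _ this
    have hxn : 0 < ‖x‖ := norm_pos_iff.2 hx
    have h2 := hfA t x 0
    simp only [hf0, sub_zero] at h2
    have h3 : (t.card : ℝ) * (d * ‖x‖) ≤ ∑ k ∈ t, |f k x| := by
      calc (t.card : ℝ) * (d * ‖x‖) = ∑ k ∈ t, d * ‖x‖ := by rw [Finset.sum_const, nsmul_eq_mul]
        _ ≤ _ := Finset.sum_le_sum fun k hk => (hbig k hk).le
    have h4 : A t.card * ‖x‖ < d * t.card * ‖x‖ := mul_lt_mul_of_pos_right h1 hxn
    linarith
  have hsum : ∀ (s : Finset ℕ) (σ : ℕ → ℝ), (∀ i, |σ i| ≤ 1) →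
      Lip (2 * M * (A 1 + (A 1 + d))) (fun x => ∑ k ∈ s, σ k * v k x) := by
    intro s σ hσ x y
    rw [← Finset.sum_sub_distrib]
    set t := s.filter (fun k => v k x ≠ 0) ∪ s.filter (fun k => v k y ≠ 0) with ht
    have htcard : (t.card : ℝ) ≤ 2 * M := by
      have h1 := Finset.card_union_le (s.filter (fun k => v k x ≠ 0)) (s.filter (fun k => v k y ≠ 0))
      rw [← ht] at h1
      have h2 := hoverlap s x
      have h3 := hoverlap s y
      have : t.card ≤ 2 * M := by omega
      exact_mod_cast this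
    have hts : t ⊆ s := Finset.union_subset (Finset.filter_subset _ _) (Finset.filter_subset _ _)
    have h1 : |∑ k ∈ s, (σ k * v k x - σ k * v k y)| ≤ ∑ k ∈ s, |v k x - v k y| := by
      refine (Finset.abs_sum_le_sum_abs _ _).trans (Finset.sum_le_sum fun k _ => ?_)
      rw [← mul_sub, abs_mul]
      calc |σ k| * |v k x - v k y| ≤ 1 * |v k x - v k y| :=
            mul_le_mul_of_nonneg_right (hσ k) (abs_nonneg _)
        _ = _ := one_mul _
    have h2 : ∑ k ∈ s, |v k x - v k y| = ∑ k ∈ t, |v k x - v k y| := by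
      symm
      apply Finset.sum_subset hts
      intro k hks hkt
      have hx : v k x = 0 := by
        by_contra h
        exact hkt (Finset.mem_union_left _ (Finset.mem_filter.2 ⟨hks, h⟩))
      have hy : v k y = 0 := by
        by_contra h
        exact hkt (Finset.mem_union_right _ (Finset.mem_filter.2 ⟨hks, h⟩))
      rw [hx, hy]; simp
    rw [h2] at h1
    refine h1.trans ((Finset.sum_le_sum fun k _ => hvlip k x y).trans ?_)
    rw [Finset.sum_const, nsmul_eq_mul, ← mul_assoc]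
    apply mul_le_mul_of_nonneg_right _ (norm_nonneg _)
    exact mul_le_mul_of_nonneg_right htcard (by positivity)
  -- finitely many bad indices
  have hfin : {k | 1 / 2 < |pair δ (v k) (μ k)|}.Finite := by
    by_contra hinf
    set C := 2 * M * (A 1 + (A 1 + d)) with hC
    have hC0 : 0 ≤ C := by positivity
    have hq : (0:ℝ) < 1 / (2 * (C + 1)) := by positivity
    obtain ⟨n, hn1, hn0⟩ := ((hBlim.eventually (gt_mem_nhds hq)).and (eventually_gt_atTop 0)).exists
    have hnpos : (0:ℝ) < n := by exact_mod_cast hn0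
    obtain ⟨s, hs, hcard⟩ := (show Set.Infinite _ from hinf).exists_subset_card_eq n
    have h1 := key hF s μ v (B := B n) hC0 (fun σ hσ => by rw [← hcard]; exact hB s σ hσ)
      (fun k _ => ⟨_, hvlip k⟩) (hsum s)
    have h2 : (n:ℝ) * (1 / 2) ≤ ∑ k ∈ s, |pair δ (v k) (μ k)| := by
      calc (n:ℝ) * (1 / 2) = ∑ k ∈ s, (1/2 : ℝ) := by rw [Finset.sum_const, hcard, nsmul_eq_mul]
        _ ≤ _ := Finset.sum_le_sum fun k hk => by
            have : k ∈ {k | 1 / 2 < |pair δ (v k) (μ k)|} := hs hk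
            exact le_of_lt this
    rw [div_lt_iff₀ hnpos] at hn1
    have h5 : C * B n ≤ C * (1 / (2 * (C + 1)) * n) := mul_le_mul_of_nonneg_left hn1.le hC0
    have h6 : C * (1 / (2 * (C + 1)) * n) < n * (1 / 2) := by
      have : C * (1 / (2 * (C + 1)) * n) = (C / (C + 1)) * (n * (1 / 2)) := by field_simp
      rw [this]
      have h7 : C / (C + 1) < 1 := by rw [div_lt_one (by positivity)]; linarith
      have h8 : (0:ℝ) < n * (1 / 2) := by positivity
      nlinarith
    linarith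
  have hev : ∀ᶠ k in atTop, ¬ (1 / 2 < |pair δ (v k) (μ k)|) := by
    rw [← Nat.cofinite_eq_atTop]
    exact hfin.eventually_cofinite_notMem
  filter_upwards [hev] with k hk
  push Not at hk
  have h1 : pair δ (v k) = pair δ (f k) - pair δ (hc d (f k)) :=
    pair_sub hF (hflip k) (hc_lip hd.le (hflip k))
  rw [h1, _root_.sub_apply] at hk
  have h2 := (abs_le.1 hk).2
  have h3 := hone k
  linarith

/-- **Abstract obstruction.** -/
theorem obstruction (hF : IsFree E F δ) (X : CubeApprox E) (hf0 : ∀ k, f k 0 = 0)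
    (hA0 : ∀ n, 0 ≤ A n)
    (hfA : ∀ (s : Finset ℕ) x y, ∑ k ∈ s, |f k x - f k y| ≤ A s.card * ‖x - y‖)
    (hB : ∀ (s : Finset ℕ) (σ : ℕ → ℝ), (∀ k, |σ k| ≤ 1) → ‖∑ k ∈ s, σ k • μ k‖ ≤ B s.card)
    (hAlim : Tendsto (fun n : ℕ => A n / Real.sqrt n) atTop (𝓝 0))
    (hBlim : Tendsto (fun n : ℕ => B n / n) atTop (𝓝 0))
    (hone : ∀ k, 1 ≤ pair δ (f k) (μ k)) : False := by
  classical
  have hd : ∀ t : ℕ, (0:ℝ) < (1 / 2) ^ t := fun t => by positivity
  obtain ⟨φ, hφ, hφp⟩ := extraction_forall_of_eventually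
    (fun t => clip_eventually hF hf0 hA0 hfA hB hAlim hBlim hone (hd t))
  have hgeom : ∀ s : Finset ℕ, ∑ t ∈ s, ((1:ℝ) / 2) ^ t ≤ 2 := by
    intro s
    have h1 : Summable (fun t : ℕ => ((1:ℝ) / 2) ^ t) := summable_geometric_two
    calc ∑ t ∈ s, ((1:ℝ) / 2) ^ t ≤ ∑' t : ℕ, ((1:ℝ) / 2) ^ t :=
          h1.sum_le_tsum s (fun t _ => by positivity)
      _ = 2 := tsum_geometric_two
  have hsumφ : ∀ (s : Finset ℕ) (x y : E), ∑ t ∈ s, |f (φ t) x - f (φ t) y| ≤
      A s.card * ‖x - y‖ := by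
    intro s x y
    have h1 := hfA (s.map ⟨φ, hφ.injective⟩) x y
    rw [Finset.card_map, Finset.sum_map] at h1
    exact h1
  have H : Dat δ (fun t => hc ((1 / 2) ^ t) (f (φ t))) (fun t => μ (φ t))
      (fun t => (1 / 2) ^ t) (fun n => A n + 2) (B 1) := by
    refine ⟨fun t => (hd t).le, ?_, fun t x => hc_size (hd t).le _ x,
      fun n => by have := hA0 n; positivity, ?_, ?_⟩
    · exact tendsto_pow_atTop_nhds_zero_of_lt_one (by norm_num) (by norm_num)
    · intro s σ hσ x y
      rw [← Finset.sum_sub_distrib]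
      have h1 : |∑ k ∈ s, (σ k * hc ((1 / 2) ^ k) (f (φ k)) x -
          σ k * hc ((1 / 2) ^ k) (f (φ k)) y)| ≤
          ∑ k ∈ s, (|f (φ k) x - f (φ k) y| + (1 / 2) ^ k * ‖x - y‖) := by
        refine (Finset.abs_sum_le_sum_abs _ _).trans (Finset.sum_le_sum fun k _ => ?_)
        rw [← mul_sub, abs_mul]
        calc _ ≤ 1 * |hc ((1 / 2) ^ k) (f (φ k)) x - hc ((1 / 2) ^ k) (f (φ k)) y| :=
              mul_le_mul_of_nonneg_right (hσ k) (abs_nonneg _)
          _ ≤ _ := by rw [one_mul]; exact hc_sub (hd k).le _ x y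
      refine h1.trans ?_
      rw [Finset.sum_add_distrib, ← Finset.sum_mul, add_mul]
      exact add_le_add (hsumφ s x y) (mul_le_mul_of_nonneg_right (hgeom s) (norm_nonneg _))
    · intro k
      have := hB {φ k} (fun _ => 1) (by simp)
      simpa using this
  refine contra hF X H (B := B) ?_ hBlim ?_ hφp
  · intro s σ hσ
    -- transport the signs along `φ`
    have h1 := hB (s.map ⟨φ, hφ.injective⟩)
      (fun k => if h : ∃ t, φ t = k then σ h.choose else 0) (fun k => by
        split_ifs with h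
        · exact hσ _
        · simp)
    rw [Finset.card_map, Finset.sum_map] at h1
    have e1 : ∑ t ∈ s, (if h : ∃ t', φ t' = (⟨φ, hφ.injective⟩ : ℕ ↪ ℕ) t then σ h.choose else 0) •
        μ ((⟨φ, hφ.injective⟩ : ℕ ↪ ℕ) t) = ∑ t ∈ s, σ t • μ (φ t) := by
      refine Finset.sum_congr rfl fun t _ => ?_
      have hex : ∃ t', φ t' = φ t := ⟨t, rfl⟩
      have : hex.choose = t := hφ.injective hex.choose_spec
      simp only [Function.Embedding.coeFn_mk]
      rw [dif_pos hex, this]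
    rw [e1] at h1
    exact h1
  · have h1 : Tendsto (fun n : ℕ => (2:ℝ) / Real.sqrt n) atTop (𝓝 0) := by
      apply Tendsto.div_atTop tendsto_const_nhds
      exact Real.tendsto_sqrt_atTop.comp tendsto_natCast_atTop_atTop
    have h2 := hAlim.add h1
    rw [add_zero] at h2
    refine h2.congr fun n => ?_
    rw [add_div]

end

end Pool.Agent.Helper72.FC
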