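import Mathlib

/-! # Lipschitz-free spaces through their universal property, and the pairing with Lipschitz functions -/

namespace Pool.Agent.Helper72.FC

open Filter Topology Set
open scoped NNReal

set_option linter.unusedSectionVars false

noncomputable section

/-- `(F, δ)` realises the Lipschitz-free space over the (pointed at `0`) normed space `E`,
through its universal property (same conditions as in the frozen statement `S06571`). -/
structure IsFree (E F : Type) [NormedAddCommGroup E] [NormedSpace ℝ E]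
    [NormedAddCommGroup F] [NormedSpace ℝ F] (δ : E → F) : Prop where
  base : δ 0 = 0
  lip : LipschitzWith 1 δ
  dense : Dense ((Submodule.span ℝ (Set.range δ) : Submodule ℝ F) : Set F)
  ext : ∀ (K : ℝ≥0) (f : E → ℝ), LipschitzWith K f → f 0 = 0 →
        ∃ φ : F →L[ℝ] ℝ, ‖φ‖ ≤ (K : ℝ) ∧ ∀ x, φ (δ x) = f x

/-- `g` is Lipschitz with (real) constant `C`. -/
def Lip {E : Type} [NormedAddCommGroup E] (C : ℝ) (g : E → ℝ) : Prop :=
  ∀ x y, |g x - g y| ≤ C * ‖x - y‖

variable {E F : Type} [NormedAddCommGroup E] [NormedSpace ℝ E]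
    [NormedAddCommGroup F] [NormedSpace ℝ F] {δ : E → F}

theorem Lip.mono {C D : ℝ} {g : E → ℝ} (h : Lip C g) (hCD : C ≤ D) : Lip D g := fun x y =>
  (h x y).trans (mul_le_mul_of_nonneg_right hCD (norm_nonneg _))

theorem Lip.add {C D : ℝ} {g h : E → ℝ} (hg : Lip C g) (hh : Lip D h) :
    Lip (C + D) (fun x => g x + h x) := by
  intro x y
  have h1 := hg x y
  have h2 := hh x y
  calc |g x + h x - (g y + h y)| = |(g x - g y) + (h x - h y)| := by ring_nf
    _ ≤ |g x - g y| + |h x - h y| := abs_add_le _ _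
    _ ≤ C * ‖x - y‖ + D * ‖x - y‖ := add_le_add h1 h2
    _ = (C + D) * ‖x - y‖ := by ring

theorem Lip.const_mul {C : ℝ} {g : E → ℝ} (hg : Lip C g) (a : ℝ) :
    Lip (|a| * C) (fun x => a * g x) := by
  intro x y
  have : a * g x - a * g y = a * (g x - g y) := by ring
  rw [this, abs_mul, mul_assoc]
  exact mul_le_mul_of_nonneg_left (hg x y) (abs_nonneg _)

theorem Lip.neg {C : ℝ} {g : E → ℝ} (hg : Lip C g) : Lip C (fun x => - g x) := by
  intro x y
  have : - g x - - g y = -(g x - g y) := by ring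
  rw [this, abs_neg]; exact hg x y

theorem Lip.sub {C D : ℝ} {g h : E → ℝ} (hg : Lip C g) (hh : Lip D h) :
    Lip (C + D) (fun x => g x - h x) := by
  have := hg.add hh.neg
  simpa [sub_eq_add_neg] using this

theorem Lip.const {C : ℝ} (hC : 0 ≤ C) (a : ℝ) : Lip (E := E) C (fun _ => a) := by
  intro x y; simp; positivity

theorem Lip.continuous {C : ℝ} {g : E → ℝ} (hg : Lip C g) : Continuous g := by
  have : LipschitzWith (Real.toNNReal C) g := by
    refine LipschitzWith.of_dist_le_mul fun x y => ?_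
    rw [Real.dist_eq, dist_eq_norm]
    exact (hg x y).trans (mul_le_mul_of_nonneg_right (Real.le_coe_toNNReal C) (norm_nonneg _))
  exact this.continuous

theorem Lip.sum {ι : Type} (s : Finset ι) {C : ι → ℝ} {g : ι → E → ℝ}
    (h : ∀ i ∈ s, Lip (C i) (g i)) : Lip (∑ i ∈ s, C i) (fun x => ∑ i ∈ s, g i x) := by
  intro x y
  rw [← Finset.sum_sub_distrib, Finset.sum_mul]
  exact (Finset.abs_sum_le_sum_abs _ _).trans (Finset.sum_le_sum fun i hi => h i hi x y)

theorem Lip.lipschitzWith {C : ℝ} {g : E → ℝ} (hg : Lip C g) :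
    LipschitzWith (Real.toNNReal C) g := by
  refine LipschitzWith.of_dist_le_mul fun x y => ?_
  rw [Real.dist_eq, dist_eq_norm]
  exact (hg x y).trans (mul_le_mul_of_nonneg_right (Real.le_coe_toNNReal C) (norm_nonneg _))

/-- Two functionals agreeing on all `δ x` agree. -/
theorem IsFree.hom_ext (hF : IsFree E F δ) {φ ψ : F →L[ℝ] ℝ} (h : ∀ x, φ (δ x) = ψ (δ x)) :
    φ = ψ := by
  apply ContinuousLinearMap.ext_on hF.dense
  rintro _ ⟨x, rfl⟩
  exact h x

open Classical in
/-- The functional on `F` induced by `g - g 0` (for `g` Lipschitz; junk value `0` otherwise). -/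
def pair (δ : E → F) (g : E → ℝ) : F →L[ℝ] ℝ :=
  if h : ∃ φ : F →L[ℝ] ℝ, ∀ x, φ (δ x) = g x - g 0 then h.choose else 0

theorem pair_exists (hF : IsFree E F δ) {C : ℝ} (hC : 0 ≤ C) {g : E → ℝ} (hg : Lip C g) :
    ∃ φ : F →L[ℝ] ℝ, ‖φ‖ ≤ C ∧ ∀ x, φ (δ x) = g x - g 0 := by
  have h1 : LipschitzWith (Real.toNNReal C) (fun x => g x - g 0) := by
    refine LipschitzWith.of_dist_le_mul fun x y => ?_
    rw [Real.dist_eq, dist_eq_norm, Real.coe_toNNReal C hC]
    have := hg x y
    simpa using this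
  obtain ⟨φ, h2, h3⟩ := hF.ext _ _ h1 (by simp)
  rw [Real.coe_toNNReal C hC] at h2
  exact ⟨φ, h2, h3⟩

theorem pair_delta (hF : IsFree E F δ) {C : ℝ} {g : E → ℝ} (hg : Lip C g) (x : E) :
    pair δ g (δ x) = g x - g 0 := by
  have h : ∃ φ : F →L[ℝ] ℝ, ∀ x, φ (δ x) = g x - g 0 := by
    obtain ⟨φ, -, h3⟩ := pair_exists hF (abs_nonneg C) (hg.mono (le_abs_self C))
    exact ⟨φ, h3⟩
  unfold pair
  rw [dif_pos h]
  exact h.choose_spec x

theorem pair_eq (hF : IsFree E F δ) {g : E → ℝ} {φ : F →L[ℝ] ℝ}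
    (h : ∀ x, φ (δ x) = g x - g 0) : pair δ g = φ := by
  have h' : ∃ φ : F →L[ℝ] ℝ, ∀ x, φ (δ x) = g x - g 0 := ⟨φ, h⟩
  unfold pair
  rw [dif_pos h']
  exact hF.hom_ext fun x => (h'.choose_spec x).trans (h x).symm

theorem norm_pair_le (hF : IsFree E F δ) {C : ℝ} (hC : 0 ≤ C) {g : E → ℝ} (hg : Lip C g) :
    ‖pair δ g‖ ≤ C := by
  obtain ⟨φ, h2, h3⟩ := pair_exists hF hC hg
  rw [pair_eq hF h3]; exact h2

theorem abs_pair_le (hF : IsFree E F δ) {C : ℝ} (hC : 0 ≤ C) {g : E → ℝ} (hg : Lip C g) (μ : F) :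
    |pair δ g μ| ≤ C * ‖μ‖ := by
  have := (pair δ g).le_opNorm μ
  rw [Real.norm_eq_abs] at this
  exact this.trans (mul_le_mul_of_nonneg_right (norm_pair_le hF hC hg) (norm_nonneg _))

theorem pair_add (hF : IsFree E F δ) {C D : ℝ} {g h : E → ℝ} (hg : Lip C g) (hh : Lip D h) :
    pair δ (fun x => g x + h x) = pair δ g + pair δ h := by
  apply pair_eq hF
  intro x
  rw [_root_.add_apply, pair_delta hF hg, pair_delta hF hh]; ring

theorem pair_const_mul (hF : IsFree E F δ) {C : ℝ} {g : E → ℝ} (hg : Lip C g) (a : ℝ) :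
    pair δ (fun x => a * g x) = a • pair δ g := by
  apply pair_eq hF
  intro x
  rw [_root_.smul_apply, pair_delta hF hg, smul_eq_mul]; ring

theorem pair_sub (hF : IsFree E F δ) {C D : ℝ} {g h : E → ℝ} (hg : Lip C g) (hh : Lip D h) :
    pair δ (fun x => g x - h x) = pair δ g - pair δ h := by
  apply pair_eq hF
  intro x
  rw [_root_.sub_apply, pair_delta hF hg, pair_delta hF hh]; ring

theorem pair_sum (hF : IsFree E F δ) {ι : Type} (s : Finset ι) {C : ι → ℝ} {g : ι → E → ℝ}
    (h : ∀ i ∈ s, Lip (C i) (g i)) :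
    pair δ (fun x => ∑ i ∈ s, g i x) = ∑ i ∈ s, pair δ (g i) := by
  apply pair_eq hF
  intro x
  rw [_root_.sum_apply, ← Finset.sum_sub_distrib]
  exact Finset.sum_congr rfl fun i hi => pair_delta hF (h i hi) x

/-- Weak-star continuity of the pairing on bounded sets of Lipschitz functions. -/
theorem pair_tendsto (hF : IsFree E F δ) {C : ℝ} (hC : 0 ≤ C) {ι : Type} {l : Filter ι}
    {g : ι → E → ℝ} {h : E → ℝ} (hg : ∀ i, Lip C (g i)) (hh : Lip C h)
    (hlim : ∀ x, Tendsto (fun i => g i x) l (𝓝 (h x))) (μ : F) :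
    Tendsto (fun i => pair δ (g i) μ) l (𝓝 (pair δ h μ)) := by
  -- the set of good `μ` contains the span of the range of `δ`
  have hspan : ∀ ν ∈ Submodule.span ℝ (Set.range δ),
      Tendsto (fun i => pair δ (g i) ν) l (𝓝 (pair δ h ν)) := by
    intro ν hν
    induction hν using Submodule.span_induction with
    | mem x hx =>
      obtain ⟨y, rfl⟩ := hx
      simp only [pair_delta hF (hg _), pair_delta hF hh]
      exact (hlim y).sub (hlim 0)
    | zero => simp only [map_zero]; exact tendsto_const_nhds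
    | add x y _ _ hx hy => simp only [map_add]; exact hx.add hy
    | smul a x _ hx => simp only [map_smul]; exact hx.const_smul a
  rw [Metric.tendsto_nhds]
  intro ε hε
  -- approximate `μ`
  have hden := hF.dense μ
  rw [Metric.mem_closure_iff] at hden
  obtain ⟨ν, hν, hμν⟩ := hden (ε / (3 * (C + 1))) (by positivity)
  have hCμ : C * ‖μ - ν‖ ≤ ε / 3 := by
    rw [dist_eq_norm] at hμν
    have h1 : C * ‖μ - ν‖ ≤ C * (ε / (3 * (C + 1))) := mul_le_mul_of_nonneg_left hμν.le hC
    have h2 : C * (ε / (3 * (C + 1))) ≤ ε / 3 := by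
      rw [mul_div_assoc', div_le_div_iff₀ (by positivity) (by norm_num)]
      nlinarith
    exact h1.trans h2
  have h3 := (Metric.tendsto_nhds.1 (hspan ν hν)) (ε / 3) (by positivity)
  filter_upwards [h3] with i hi
  rw [Real.dist_eq] at hi ⊢
  have e1 := abs_pair_le hF hC (hg i) (μ - ν)
  have e2 := abs_pair_le hF hC hh (μ - ν)
  rw [map_sub] at e1 e2
  have e3 : pair δ (g i) μ - pair δ h μ = (pair δ (g i) μ - pair δ (g i) ν) +
    (pair δ (g i) ν - pair δ h ν) - (pair δ h μ - pair δ h ν) := by ring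
  rw [e3]
  calc |(pair δ (g i) μ - pair δ (g i) ν) +
    (pair δ (g i) ν - pair δ h ν) - (pair δ h μ - pair δ h ν)|
      ≤ |(pair δ (g i) μ - pair δ (g i) ν) + (pair δ (g i) ν - pair δ h ν)| +
        |pair δ h μ - pair δ h ν| := abs_sub _ _
    _ ≤ |pair δ (g i) μ - pair δ (g i) ν| + |pair δ (g i) ν - pair δ h ν| +
        |pair δ h μ - pair δ h ν| := by gcongr; exact abs_add_le _ _
    _ < ε := by linarith

end

end Pool.Agent.Helper72.FC
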