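import Pool.Agent.Helper72.FC.Lp

/-! # The general non-complementation criterion -/

namespace Pool.Agent.Helper72.FC

open Filter Topology ContinuousLinearMap

set_option linter.unusedSectionVars false

noncomputable section

variable {E F : Type} [NormedAddCommGroup E] [NormedSpace ℝ E]
    [NormedAddCommGroup F] [NormedSpace ℝ F] {δ : E → F}

theorem gen_not_complemented (hF : IsFree E F δ) (X : CubeApprox E)
    {V : Type} [NormedAddCommGroup V] [NormedSpace ℝ V]
    (v : ℕ → V) (g : ℕ → V →L[ℝ] ℝ) (a b : ℕ → ℝ) (hgv : ∀ k, g k (v k) = 1)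
    (hv : ∀ (s : Finset ℕ) (σ : ℕ → ℝ), (∀ k, |σ k| ≤ 1) → ‖∑ k ∈ s, σ k • v k‖ ≤ b s.card)
    (hg : ∀ (s : Finset ℕ) (σ : ℕ → ℝ), (∀ k, |σ k| ≤ 1) → ‖∑ k ∈ s, σ k • g k‖ ≤ a s.card)
    (hb : Tendsto (fun n : ℕ => b n / n) atTop (𝓝 0))
    (ha : Tendsto (fun n : ℕ => a n / Real.sqrt n) atTop (𝓝 0))
    (S : V →L[ℝ] F) (T : F →L[ℝ] V) (hTS : ∀ v, T (S v) = v) : False := by
  have ha0 : ∀ n, 0 ≤ a n := fun n => by
    have := (norm_nonneg _).trans (hg (Finset.range n) (fun _ => 0) (by simp))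
    simpa using this
  refine obstruction hF X (f := fun k x => g k (T (δ x))) (μ := fun k => S (v k))
    (A := fun n => ‖T‖ * a n) (B := fun n => ‖S‖ * b n) ?_ ?_ ?_ ?_ ?_ ?_ ?_
  · intro k
    simp [hF.base]
  · intro n
    exact mul_nonneg (norm_nonneg _) (ha0 n)
  · intro s x y
    classical
    set w := T (δ x - δ y) with hw
    have e1 : ∀ k, g k (T (δ x)) - g k (T (δ y)) = g k w := by
      intro k; rw [hw, map_sub, map_sub]
    simp only [e1]
    set σ : ℕ → ℝ := fun k => if 0 ≤ g k w then 1 else -1 with hσ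
    have hσabs : ∀ k, |σ k| ≤ 1 := by
      intro k; rw [hσ]; dsimp only; split_ifs <;> simp
    have hσ1 : ∀ k, σ k * g k w = |g k w| := by
      intro k
      rw [hσ]; dsimp only
      split_ifs with h
      · rw [one_mul, abs_of_nonneg h]
      · rw [abs_of_neg (not_le.1 h)]; ring
    have e2 : ∑ k ∈ s, |g k w| = (∑ k ∈ s, σ k • g k) w := by
      rw [_root_.sum_apply]
      exact Finset.sum_congr rfl fun k _ => by rw [_root_.smul_apply, smul_eq_mul, hσ1]
    have e3 : ‖w‖ ≤ ‖T‖ * ‖x - y‖ := by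
      refine (T.le_opNorm _).trans (mul_le_mul_of_nonneg_left ?_ (norm_nonneg _))
      have := hF.lip.dist_le_mul x y
      rw [dist_eq_norm, dist_eq_norm] at this
      simpa using this
    rw [e2]
    have e4 := (∑ k ∈ s, σ k • g k).le_opNorm w
    rw [Real.norm_eq_abs] at e4
    calc (∑ k ∈ s, σ k • g k) w ≤ |(∑ k ∈ s, σ k • g k) w| := le_abs_self _
      _ ≤ ‖∑ k ∈ s, σ k • g k‖ * ‖w‖ := e4
      _ ≤ a s.card * (‖T‖ * ‖x - y‖) := mul_le_mul (hg s σ hσabs) e3 (norm_nonneg _) (ha0 _)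
      _ = _ := by ring
  · intro s σ hσ
    have e1 : ∑ k ∈ s, σ k • S (v k) = S (∑ k ∈ s, σ k • v k) := by
      rw [map_sum]; exact Finset.sum_congr rfl fun k _ => by rw [map_smul]
    rw [e1]
    exact (S.le_opNorm _).trans (mul_le_mul_of_nonneg_left (hv s σ hσ) (norm_nonneg _))
  · have := ha.const_mul ‖T‖
    rw [mul_zero] at this
    exact this.congr fun n => by ring
  · have := hb.const_mul ‖S‖
    rw [mul_zero] at this
    exact this.congr fun n => by ring
  · intro k
    have e1 : pair δ (fun x => g k (T (δ x))) = (g k).comp T := by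
      apply pair_eq hF
      intro x
      simp [hF.base]
    rw [e1, ContinuousLinearMap.comp_apply, hTS, hgv]

end

end Pool.Agent.Helper72.FC
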