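import Pool.Agent.Helper72.FC.Free

/-! # Homogeneously Lipschitz functions (cutoffs) -/

namespace Pool.Agent.Helper72.FC

open Filter Topology

set_option linter.unusedSectionVars false

noncomputable section

variable {E : Type} [NormedAddCommGroup E] [NormedSpace ℝ E]

/-- `g` has local Lipschitz constants `≤ Λ/(1+‖y‖)`. -/
def HL (Λ : ℝ) (g : E → ℝ) : Prop := ∀ x y, |g x - g y| * (1 + ‖y‖) ≤ Λ * ‖x - y‖

theorem HL.mono {Λ Λ' : ℝ} {g : E → ℝ} (h : HL Λ g) (hl : Λ ≤ Λ') : HL Λ' g := fun x y =>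
  (h x y).trans (mul_le_mul_of_nonneg_right hl (norm_nonneg _))

theorem HL.comp {Λ K : ℝ} {g : E → ℝ} (h : HL Λ g) (hK : 0 ≤ K) {f : ℝ → ℝ}
    (hf : ∀ s t, |f s - f t| ≤ K * |s - t|) : HL (K * Λ) (fun x => f (g x)) := by
  intro x y
  have h1 := h x y
  have h2 := hf (g x) (g y)
  have h3 : 0 < 1 + ‖y‖ := by positivity
  calc |f (g x) - f (g y)| * (1 + ‖y‖) ≤ K * |g x - g y| * (1 + ‖y‖) :=
        mul_le_mul_of_nonneg_right h2 h3.le
    _ = K * (|g x - g y| * (1 + ‖y‖)) := by ring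
    _ ≤ K * (Λ * ‖x - y‖) := mul_le_mul_of_nonneg_left h1 hK
    _ = K * Λ * ‖x - y‖ := by ring

theorem HL.mul {Λ Λ' a b : ℝ} {g h : E → ℝ} (hg : HL Λ g) (hh : HL Λ' h)
    (hga : ∀ x, |g x| ≤ a) (hhb : ∀ x, |h x| ≤ b) :
    HL (b * Λ + a * Λ') (fun x => g x * h x) := by
  intro x y
  have h1 := hg x y
  have h2 := hh x y
  have h3 : 0 < 1 + ‖y‖ := by positivity
  have hxy := norm_nonneg (x - y)
  have e1 : g x * h x - g y * h y = (g x - g y) * h y + g x * (h x - h y) := by ring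
  calc |g x * h x - g y * h y| * (1 + ‖y‖)
      ≤ (|g x - g y| * |h y| + |g x| * |h x - h y|) * (1 + ‖y‖) := by
        apply mul_le_mul_of_nonneg_right _ h3.le
        rw [e1, ← abs_mul, ← abs_mul]; exact abs_add_le _ _
    _ = |h y| * (|g x - g y| * (1 + ‖y‖)) + |g x| * (|h x - h y| * (1 + ‖y‖)) := by ring
    _ ≤ b * (|g x - g y| * (1 + ‖y‖)) + a * (|h x - h y| * (1 + ‖y‖)) := by
        apply add_le_add
        · exact mul_le_mul_of_nonneg_right (hhb y) (by positivity)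
        · exact mul_le_mul_of_nonneg_right (hga x) (by positivity)
    _ ≤ b * (Λ * ‖x - y‖) + a * (Λ' * ‖x - y‖) := by
        apply add_le_add
        · exact mul_le_mul_of_nonneg_left h1 ((abs_nonneg _).trans (hhb x))
        · exact mul_le_mul_of_nonneg_left h2 ((abs_nonneg _).trans (hga x))
    _ = (b * Λ + a * Λ') * ‖x - y‖ := by ring

theorem HL.sum (s : Finset ℕ) {Λ : ℕ → ℝ} {g : ℕ → E → ℝ} (h : ∀ k ∈ s, HL (Λ k) (g k)) :
    HL (∑ k ∈ s, Λ k) (fun x => ∑ k ∈ s, g k x) := by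
  intro x y
  rw [← Finset.sum_sub_distrib, Finset.sum_mul]
  have h3 : 0 < 1 + ‖y‖ := by positivity
  calc |∑ k ∈ s, (g k x - g k y)| * (1 + ‖y‖) ≤ (∑ k ∈ s, |g k x - g k y|) * (1 + ‖y‖) :=
        mul_le_mul_of_nonneg_right (Finset.abs_sum_le_sum_abs _ _) h3.le
    _ = ∑ k ∈ s, |g k x - g k y| * (1 + ‖y‖) := by rw [Finset.sum_mul]
    _ ≤ _ := Finset.sum_le_sum fun k hk => h k hk x y

/-- product of an HL cutoff and a Lipschitz function of small growth -/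
theorem HL.lip_mul {Λ M C e : ℝ} {Θ g : E → ℝ} (hΘ : HL Λ Θ) (hM : ∀ x, |Θ x| ≤ M)
    (hg : Lip C g) (he : ∀ x, |g x| ≤ e * (1 + ‖x‖)) :
    Lip (M * C + Λ * e) (fun x => Θ x * g x) := by
  intro x y
  have h1 := hΘ x y
  have h3 : 0 < 1 + ‖y‖ := by positivity
  have e1 : Θ x * g x - Θ y * g y = Θ x * (g x - g y) + (Θ x - Θ y) * g y := by ring
  have e0 : 0 ≤ e := by
    have := (abs_nonneg _).trans (he 0)
    simpa using this
  calc |Θ x * g x - Θ y * g y| ≤ |Θ x| * |g x - g y| + |Θ x - Θ y| * |g y| := by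
        rw [e1, ← abs_mul, ← abs_mul]; exact abs_add_le _ _
    _ ≤ M * (C * ‖x - y‖) + |Θ x - Θ y| * (e * (1 + ‖y‖)) := by
        apply add_le_add
        · exact mul_le_mul (hM x) (hg x y) (abs_nonneg _) ((abs_nonneg _).trans (hM x))
        · exact mul_le_mul_of_nonneg_left (he y) (abs_nonneg _)
    _ = M * (C * ‖x - y‖) + e * (|Θ x - Θ y| * (1 + ‖y‖)) := by ring
    _ ≤ M * (C * ‖x - y‖) + e * (Λ * ‖x - y‖) := by
        have := mul_le_mul_of_nonneg_left h1 e0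
        linarith
    _ = (M * C + Λ * e) * ‖x - y‖ := by ring

/-- the radial cutoff `R/(R+‖x‖)` -/
def ze (R : ℝ) (x : E) : ℝ := R / (R + ‖x‖)

theorem ze_nonneg {R : ℝ} (hR : 1 ≤ R) (x : E) : 0 ≤ ze R x := by
  unfold ze; positivity

theorem ze_le_one {R : ℝ} (hR : 1 ≤ R) (x : E) : ze R x ≤ 1 := by
  unfold ze
  have : 0 ≤ ‖x‖ := norm_nonneg x
  rw [div_le_one (by linarith)]; linarith

theorem abs_ze_le {R : ℝ} (hR : 1 ≤ R) (x : E) : |ze R x| ≤ 1 := by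
  rw [abs_of_nonneg (ze_nonneg hR x)]; exact ze_le_one hR x

theorem ze_HL {R : ℝ} (hR : 1 ≤ R) : HL 1 (ze R : E → ℝ) := by
  intro x y
  have hx : 0 ≤ ‖x‖ := norm_nonneg x
  have hy : 0 ≤ ‖y‖ := norm_nonneg y
  have h1 : ze R x - ze R y = R * (‖y‖ - ‖x‖) / ((R + ‖x‖) * (R + ‖y‖)) := by
    unfold ze; field_simp; ring
  have h2 : |‖y‖ - ‖x‖| ≤ ‖x - y‖ := by
    rw [norm_sub_rev x y]; exact abs_norm_sub_norm_le y x
  rw [h1, abs_div, abs_mul, abs_of_pos (by linarith : (0:ℝ) < R),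
    abs_of_pos (by positivity : 0 < (R + ‖x‖) * (R + ‖y‖)), one_mul, div_mul_eq_mul_div,
    div_le_iff₀ (by positivity)]
  have h3 : R * (1 + ‖y‖) ≤ (R + ‖x‖) * (R + ‖y‖) := by nlinarith [mul_nonneg hx hy]
  calc R * |‖y‖ - ‖x‖| * (1 + ‖y‖) = (R * (1 + ‖y‖)) * |‖y‖ - ‖x‖| := by ring
    _ ≤ ((R + ‖x‖) * (R + ‖y‖)) * ‖x - y‖ :=
        mul_le_mul h3 h2 (abs_nonneg _) (by positivity)
    _ = _ := by ring

/-- `ze R * S` is HL when `S` is Lipschitz and bounded. -/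
theorem ze_mul_HL {R K a : ℝ} (hR : 1 ≤ R) {S : E → ℝ} (hS : Lip K S)
    (ha : ∀ x, |S x| ≤ a) : HL (a + R * K) (fun x => ze R x * S x) := by
  intro x y
  have h1 := ze_HL (E := E) hR x y
  have hx : 0 ≤ ‖x‖ := norm_nonneg x
  have hy : 0 ≤ ‖y‖ := norm_nonneg y
  have hxy := norm_nonneg (x - y)
  have e1 : ze R x * S x - ze R y * S y = (ze R x - ze R y) * S x + ze R y * (S x - S y) := by ring
  have h3 : 0 < 1 + ‖y‖ := by positivity
  have h4 : ze R y * (1 + ‖y‖) ≤ R := by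
    unfold ze
    rw [div_mul_eq_mul_div, div_le_iff₀ (by linarith)]
    nlinarith
  have h5 := hS x y
  calc |ze R x * S x - ze R y * S y| * (1 + ‖y‖)
      ≤ (|ze R x - ze R y| * |S x| + |ze R y| * |S x - S y|) * (1 + ‖y‖) := by
        apply mul_le_mul_of_nonneg_right _ h3.le
        rw [e1, ← abs_mul, ← abs_mul]; exact abs_add_le _ _
    _ = (|ze R x - ze R y| * (1 + ‖y‖)) * |S x| + (ze R y * (1 + ‖y‖)) * |S x - S y| := by
        rw [abs_of_nonneg (ze_nonneg hR y)]; ring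
    _ ≤ (1 * ‖x - y‖) * a + R * (K * ‖x - y‖) := by
        apply add_le_add
        · exact mul_le_mul h1 (ha x) (abs_nonneg _) (by linarith)
        · exact mul_le_mul h4 h5 (abs_nonneg _) (by linarith)
    _ = (a + R * K) * ‖x - y‖ := by ring

theorem ze_tendsto (x : E) :
    Tendsto (fun j : ℕ => ze ((j : ℝ) + 1) x) atTop (𝓝 1) := by
  have h1 : ∀ j : ℕ, ze ((j:ℝ) + 1) x = 1 - ‖x‖ / ((j:ℝ) + 1 + ‖x‖) := by
    intro j
    unfold ze
    have : (0:ℝ) < (j:ℝ) + 1 + ‖x‖ := by positivity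
    field_simp
    ring
  simp only [h1]
  have h2 : Tendsto (fun j : ℕ => ‖x‖ / ((j:ℝ) + 1 + ‖x‖)) atTop (𝓝 0) := by
    apply Tendsto.div_atTop tendsto_const_nhds
    have : Tendsto (fun j : ℕ => (j:ℝ) + (1 + ‖x‖)) atTop atTop :=
      tendsto_atTop_add_const_right _ _ tendsto_natCast_atTop_atTop
    simpa [add_assoc] using this
  simpa using h2.const_sub 1

/-- clamp to `[0,1]` -/
def cl01 (t : ℝ) : ℝ := max 0 (min t 1)

theorem cl01_nonneg (t : ℝ) : 0 ≤ cl01 t := le_max_left _ _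
theorem cl01_le_one (t : ℝ) : cl01 t ≤ 1 := max_le zero_le_one (min_le_right _ _)
theorem cl01_lip (s t : ℝ) : |cl01 s - cl01 t| ≤ |s - t| := by
  unfold cl01
  have h1 : |max 0 (min s 1) - max 0 (min t 1)| ≤ |min s 1 - min t 1| := by
    have := abs_max_sub_max_le_max (0:ℝ) (min s 1) 0 (min t 1)
    simpa using this
  have h2 : |min s 1 - min t 1| ≤ |s - t| := by
    have := abs_min_sub_min_le_max s 1 t 1
    simpa using this
  exact h1.trans h2
theorem cl01_eq_zero {t : ℝ} (h : t ≤ 0) : cl01 t = 0 := by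
  unfold cl01; rw [min_eq_left (by linarith), max_eq_left h]
theorem cl01_eq_one {t : ℝ} (h : 1 ≤ t) : cl01 t = 1 := by
  unfold cl01; rw [min_eq_right h, max_eq_right zero_le_one]

end

end Pool.Agent.Helper72.FC
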