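import Pool.Agent.Helper72.FC.Free

/-! # The sign-averaging (diagonal) lemma -/

namespace Pool.Agent.Helper72.FC

open Filter Topology Set
open scoped NNReal

set_option linter.unusedSectionVars false

noncomputable section

variable {E F : Type} [NormedAddCommGroup E] [NormedSpace ℝ E]
    [NormedAddCommGroup F] [NormedSpace ℝ F] {δ : E → F}

/-- For any real matrix there are signs with `∑ᵢ b i i ≤ ∑ᵢⱼ σᵢ σⱼ b i j`. -/
theorem exists_signs (s : Finset ℕ) (b : ℕ → ℕ → ℝ) :
    ∃ σ : ℕ → ℝ, (∀ i, σ i = 1 ∨ σ i = -1) ∧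
      ∑ i ∈ s, b i i ≤ ∑ i ∈ s, ∑ j ∈ s, σ i * σ j * b i j := by
  induction s using Finset.induction_on with
  | empty => exact ⟨fun _ => 1, fun _ => Or.inl rfl, by simp⟩
  | insert a s ha ih =>
    obtain ⟨σ, hσ, h⟩ := ih
    -- the cross term
    set c : ℝ := ∑ j ∈ s, σ j * (b a j + b j a) with hc
    obtain ⟨τ, hτ, hτc⟩ : ∃ τ : ℝ, (τ = 1 ∨ τ = -1) ∧ 0 ≤ τ * c := by
      rcases le_total 0 c with h0 | h0
      · exact ⟨1, Or.inl rfl, by linarith⟩
      · exact ⟨-1, Or.inr rfl, by linarith⟩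
    refine ⟨Function.update σ a τ, ?_, ?_⟩
    · intro i
      by_cases hi : i = a
      · subst hi; simpa using hτ
      · simpa [Function.update_of_ne hi] using hσ i
    · have hne : ∀ i ∈ s, i ≠ a := fun i hi h => ha (h ▸ hi)
      have hτ2 : τ * τ = 1 := by rcases hτ with h | h <;> rw [h] <;> norm_num
      rw [Finset.sum_insert ha, Finset.sum_insert ha, Finset.sum_insert ha]
      simp only [Function.update_self]
      have e1 : ∑ j ∈ s, τ * Function.update σ a τ j * b a j = τ * ∑ j ∈ s, σ j * b a j := by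
        rw [Finset.mul_sum]
        refine Finset.sum_congr rfl fun j hj => ?_
        rw [Function.update_of_ne (hne j hj)]; ring
      have e2 : ∑ i ∈ s, ∑ j ∈ insert a s, Function.update σ a τ i * Function.update σ a τ j * b i j
          = τ * ∑ i ∈ s, σ i * b i a + ∑ i ∈ s, ∑ j ∈ s, σ i * σ j * b i j := by
        rw [Finset.mul_sum, ← Finset.sum_add_distrib]
        refine Finset.sum_congr rfl fun i hi => ?_
        rw [Finset.sum_insert ha, Function.update_of_ne (hne i hi), Function.update_self]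
        congr 1
        · ring
        · refine Finset.sum_congr rfl fun j hj => ?_
          rw [Function.update_of_ne (hne j hj)]
      rw [e1, e2]
      have e3 : c = ∑ j ∈ s, σ j * b a j + ∑ i ∈ s, σ i * b i a := by
        rw [hc, ← Finset.sum_add_distrib]
        exact Finset.sum_congr rfl fun j _ => by ring
      rw [e3] at hτc
      rw [hτ2]
      linarith

/-- Diagonal lemma: if signed sums of the `μ k` are bounded by `B` and signed sums of the `g k`
are `C`-Lipschitz, then `∑ |⟨μ k, g k⟩| ≤ C * B`. -/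
theorem key (hF : IsFree E F δ) (s : Finset ℕ) (μ : ℕ → F) (g : ℕ → E → ℝ) {B C : ℝ}
    (hC : 0 ≤ C)
    (hμ : ∀ σ : ℕ → ℝ, (∀ i, |σ i| ≤ 1) → ‖∑ k ∈ s, σ k • μ k‖ ≤ B)
    (hg0 : ∀ k ∈ s, ∃ D, Lip D (g k))
    (hg : ∀ σ : ℕ → ℝ, (∀ i, |σ i| ≤ 1) → Lip C (fun x => ∑ k ∈ s, σ k * g k x)) :
    ∑ k ∈ s, |pair δ (g k) (μ k)| ≤ C * B := by
  classical
  -- signs making the diagonal positive
  set τ : ℕ → ℝ := fun k => if 0 ≤ pair δ (g k) (μ k) then 1 else -1 with hτ
  have hτabs : ∀ k, |τ k| ≤ 1 := by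
    intro k; rw [hτ]; dsimp only; split_ifs <;> simp
  have hτ1 : ∀ k, τ k * pair δ (g k) (μ k) = |pair δ (g k) (μ k)| := by
    intro k
    rw [hτ]; dsimp only
    split_ifs with h
    · rw [one_mul, abs_of_nonneg h]
    · rw [abs_of_neg (not_le.1 h)]; ring
  obtain ⟨σ, hσ, h⟩ := exists_signs s (fun i j => τ i * pair δ (g j) (μ i))
  have hσabs : ∀ k, |σ k| ≤ 1 := by
    intro k; rcases hσ k with h | h <;> rw [h] <;> simp
  choose! D hD using hg0
  have e1 : ∑ i ∈ s, ∑ j ∈ s, σ i * σ j * (τ i * pair δ (g j) (μ i)) =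
      pair δ (fun x => ∑ j ∈ s, σ j * g j x) (∑ i ∈ s, (σ i * τ i) • μ i) := by
    rw [pair_sum hF s (C := fun j => |σ j| * D j) (fun j hj => (hD j hj).const_mul (σ j))]
    rw [_root_.sum_apply, Finset.sum_comm]
    refine Finset.sum_congr rfl fun j hj => ?_
    rw [pair_const_mul hF (hD j hj), _root_.smul_apply, map_sum, smul_eq_mul,
      Finset.mul_sum]
    refine Finset.sum_congr rfl fun i _ => ?_
    rw [map_smul, smul_eq_mul]; ring
  have e2 := abs_pair_le hF hC (hg σ hσabs) (∑ i ∈ s, (σ i * τ i) • μ i)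
  have e3 := hμ (fun i => σ i * τ i) (fun i => by
    rw [abs_mul]; exact mul_le_one₀ (hσabs i) (abs_nonneg _) (hτabs i))
  have e4 : ∑ k ∈ s, |pair δ (g k) (μ k)| = ∑ i ∈ s, τ i * pair δ (g i) (μ i) :=
    Finset.sum_congr rfl fun k _ => (hτ1 k).symm
  rw [e4]
  calc ∑ i ∈ s, τ i * pair δ (g i) (μ i)
      ≤ ∑ i ∈ s, ∑ j ∈ s, σ i * σ j * (τ i * pair δ (g j) (μ i)) := h
    _ = pair δ (fun x => ∑ j ∈ s, σ j * g j x) (∑ i ∈ s, (σ i * τ i) • μ i) := e1
    _ ≤ |pair δ (fun x => ∑ j ∈ s, σ j * g j x) (∑ i ∈ s, (σ i * τ i) • μ i)| := le_abs_self _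
    _ ≤ C * ‖∑ i ∈ s, (σ i * τ i) • μ i‖ := e2
    _ ≤ C * B := mul_le_mul_of_nonneg_left e3 hC

/-- Local-to-global: a pointwise slope bound everywhere gives a Lipschitz bound. -/
theorem lip_of_slope {C : ℝ} {g : E → ℝ}
    (h : ∀ x, ∀ ε > 0, ∀ᶠ y in 𝓝 x, |g y - g x| ≤ (C + ε) * ‖y - x‖) : Lip C g := by
  -- continuity
  have hcont : Continuous g := by
    rw [continuous_iff_continuousAt]
    intro x
    rw [ContinuousAt, tendsto_iff_dist_tendsto_zero]
    have h1 := h x 1 one_pos
    have h2 : Tendsto (fun y => (C + 1) * ‖y - x‖) (𝓝 x) (𝓝 0) := by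
      have : Tendsto (fun y => (C + 1) * ‖y - x‖) (𝓝 x) (𝓝 ((C + 1) * ‖x - x‖)) :=
        ((continuous_const.mul (continuous_id.sub continuous_const).norm).tendsto x)
      simpa using this
    refine squeeze_zero' (Eventually.of_forall fun _ => dist_nonneg) ?_ h2
    filter_upwards [h1] with y hy
    rw [Real.dist_eq]; exact hy
  have key : ∀ x y : E, x ≠ y → g y - g x ≤ C * ‖y - x‖ := by
    intro x y hxy
    have hn : 0 < ‖y - x‖ := norm_pos_iff.2 (sub_ne_zero.2 (Ne.symm hxy))
    refine le_of_forall_pos_le_add fun e he => ?_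
    -- curve
    let f : ℝ → ℝ := fun t => g (x + t • (y - x)) - g x
    have hf : ContinuousOn f (Icc 0 1) := by
      have : Continuous f := by
        have : Continuous fun t : ℝ => x + t • (y - x) := by fun_prop
        exact (hcont.comp this).sub continuous_const
      exact this.continuousOn
    have hf' : ∀ t ∈ Ico (0:ℝ) 1, ∀ r, (C * ‖y - x‖) < r → ∃ᶠ z in 𝓝[>] t, slope f t z < r := by
      intro t _ r hr
      apply Eventually.frequently
      -- choose eps
      obtain ⟨ε, hε, hεr⟩ : ∃ ε > 0, (C + ε) * ‖y - x‖ < r := by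
        refine ⟨(r - C * ‖y - x‖) / (2 * ‖y - x‖), by
          apply div_pos (by linarith) (by linarith), ?_⟩
        have : (C + (r - C * ‖y - x‖) / (2 * ‖y - x‖)) * ‖y - x‖ =
          C * ‖y - x‖ + (r - C * ‖y - x‖) / 2 := by
          field_simp
        rw [this]; linarith
      have h1 := h (x + t • (y - x)) ε hε
      have hc : Tendsto (fun z : ℝ => x + z • (y - x)) (𝓝 t) (𝓝 (x + t • (y - x))) := by
        have : Continuous fun t : ℝ => x + t • (y - x) := by fun_prop
        exact this.tendsto t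
      have h2 := (hc.eventually h1).filter_mono (nhdsWithin_le_nhds (s := Ioi t))
      filter_upwards [h2, self_mem_nhdsWithin] with z hz hzt
      have hzt' : 0 < z - t := sub_pos.2 hzt
      rw [slope_def_field]
      have e1 : f z - f t = g (x + z • (y - x)) - g (x + t • (y - x)) := by
        simp only [f]; ring
      have e2 : x + z • (y - x) - (x + t • (y - x)) = (z - t) • (y - x) := by
        rw [sub_smul]; abel
      rw [e2, norm_smul, Real.norm_eq_abs, abs_of_pos hzt'] at hz
      rw [e1, div_lt_iff₀ hzt']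
      have := (le_abs_self _).trans hz
      nlinarith
    have hmain := image_le_of_liminf_slope_right_lt_deriv_boundary (f := f) (f' := fun _ => C * ‖y - x‖)
      (a := 0) (b := 1) hf hf' (B := fun t => (C * ‖y - x‖ + e) * t)
      (B' := fun _ => (C * ‖y - x‖ + e)) (by simp [f]) (fun t => by
        simpa using (hasDerivAt_id t).const_mul (C * ‖y - x‖ + e)) (fun t _ _ => by linarith)
    have := hmain (x := 1) ⟨zero_le_one, le_refl 1⟩
    simp only [f, one_smul, mul_one] at this
    simpa using this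
  intro x y
  by_cases hxy : x = y
  · subst hxy; simp
  · rw [abs_le]
    have h1 := key x y hxy
    have h2 := key y x (Ne.symm hxy)
    rw [norm_sub_rev] at h1
    constructor <;> linarith

end

end Pool.Agent.Helper72.FC
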