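import Pool.Agent.Helper72.FC.Stage
import Pool.Agent.Helper72.FC.Key

/-! # Iterating the step, and the contradiction -/

namespace Pool.Agent.Helper72.FC

open Filter Topology ContinuousLinearMap

set_option linter.unusedSectionVars false

noncomputable section

variable {E F : Type} [NormedAddCommGroup E] [NormedSpace ℝ E]
    [NormedAddCommGroup F] [NormedSpace ℝ F] {δ : E → F}
variable {f : ℕ → E → ℝ} {ν : ℕ → F} {e A : ℕ → ℝ} {B1 : ℝ}

open Classical in
theorem iter (hF : IsFree E F δ) (X : CubeApprox E) (H : Dat δ f ν e A B1)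
    {η : ℝ} (hη : 0 < η) {M : ℕ} (hM : ∀ n : ℕ, M < n → 2 * A n < η * Real.sqrt n)
    {c0 : ℝ} (hc0 : ∀ k, c0 ≤ pair δ (f k) (ν k)) {ε : ℝ} (hε : 0 < ε) (n : ℕ) :
    ∃ (s : Finset ℕ) (g : ℕ → E → ℝ) (Θ : E → ℝ) (Λ : ℝ) (N : Set ℕ),
      s.card = n ∧ (∀ k ∈ s, ∃ D, Lip D (g k)) ∧
      (∀ k ∈ s, c0 - n * ε ≤ pair δ (g k) (ν k)) ∧
      (∀ x, ∀ ε' > 0, ∀ᶠ y in 𝓝 x, ∑ k ∈ s, |g k y - g k x| ≤
        (3 * η * n + (if Θ x = 0 then A 1 else 0) + ε') * ‖y - x‖) ∧
      0 ≤ Λ ∧ HL Λ Θ ∧ (∀ x, 0 ≤ Θ x) ∧ (∀ x, Θ x ≤ 1) ∧ N.Infinite ∧ (∀ l ∈ N, l ∉ s) ∧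
      (∀ l ∈ N, c0 - n * ε ≤ pair δ (fun x => Θ x * f l x) (ν l)) := by
  induction n with
  | zero =>
    refine ⟨∅, fun _ _ => 0, fun _ => 1, 0, Set.univ, rfl, by simp, by simp, ?_, le_refl _,
      fun x y => by simp, fun _ => zero_le_one, fun _ => le_refl _, Set.infinite_univ, by simp, ?_⟩
    · intro x ε' hε'
      refine Eventually.of_forall fun y => ?_
      simp only [Finset.sum_empty]
      have : (1:ℝ) ≠ 0 := one_ne_zero
      rw [if_neg this]
      have := norm_nonneg (y - x)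
      positivity
    · intro l _
      simp only [one_mul, Nat.cast_zero, zero_mul, sub_zero]
      exact hc0 l
  | succ n ih =>
    obtain ⟨s, g, Θ, Λ, N, hcard, hglip, hgp, hslope, hΛ, hΘ, hΘ0, hΘ1, hN, hNs, hNp⟩ := ih
    obtain ⟨κ, hκN, φ, S, D, hφlip, hφp, hS, hφs, Θ', Λ', hΛ', hΘ'HL, hΘ'0, hΘ'1, hz, hnz,
      N', hN'N, hN'inf, hκN', hN'p⟩ := stage hF X H hη hM hΛ hΘ hΘ0 hΘ1 hN hNp hε
    have hκs : κ ∉ s := hNs κ hκN
    have hne : ∀ k ∈ s, k ≠ κ := fun k hk h => hκs (h ▸ hk)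
    refine ⟨insert κ s, Function.update g κ φ, Θ', Λ', N', ?_, ?_, ?_, ?_, hΛ', hΘ'HL, hΘ'0, hΘ'1,
      hN'inf, ?_, ?_⟩
    · rw [Finset.card_insert_of_notMem hκs, hcard]
    · intro k hk
      rcases Finset.mem_insert.1 hk with h | h
      · subst h; exact ⟨D, by simpa using hφlip⟩
      · obtain ⟨D', hD'⟩ := hglip k h
        exact ⟨D', by rw [Function.update_of_ne (hne k h)]; exact hD'⟩
    · intro k hk
      push_cast
      rcases Finset.mem_insert.1 hk with h | h
      · subst h; rw [Function.update_self]; linarith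
      · rw [Function.update_of_ne (hne k h)]; have := hgp k h; linarith
    · intro x ε' hε'
      have h1 := hslope x (ε' / 2) (by positivity)
      have h2 := hφs x (ε' / 2) (by positivity)
      filter_upwards [h1, h2] with y hy1 hy2
      rw [Finset.sum_insert hκs, Function.update_self]
      have e1 : ∑ k ∈ s, |Function.update g κ φ k y - Function.update g κ φ k x| =
          ∑ k ∈ s, |g k y - g k x| :=
        Finset.sum_congr rfl fun k hk => by rw [Function.update_of_ne (hne k hk)]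
      rw [e1]
      have hn : 0 ≤ ‖y - x‖ := norm_nonneg _
      have key : η + Θ x * S x + (3 * η * n + (if Θ x = 0 then A 1 else 0)) ≤
          3 * η * ((n:ℝ) + 1) + (if Θ' x = 0 then A 1 else 0) := by
        obtain ⟨hS0, hSA⟩ := hS x
        by_cases hx : Θ x = 0
        · rw [if_pos hx, if_pos (hz x hx), hx]; nlinarith
        · rw [if_neg hx]
          have hΘS : Θ x * S x ≤ S x := by
            have := mul_le_mul_of_nonneg_right (hΘ1 x) hS0
            linarith
          by_cases hx' : Θ' x = 0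
          · rw [if_pos hx']; nlinarith
          · rw [if_neg hx']
            have := hnz x hx'
            nlinarith
      push_cast
      calc _ ≤ (η + Θ x * S x + ε' / 2) * ‖y - x‖ +
            (3 * η * n + (if Θ x = 0 then A 1 else 0) + ε' / 2) * ‖y - x‖ := add_le_add hy2 hy1
        _ = (η + Θ x * S x + (3 * η * n + (if Θ x = 0 then A 1 else 0)) + ε') * ‖y - x‖ := by ring
        _ ≤ _ := mul_le_mul_of_nonneg_right (by linarith) hn
    · intro l hl h
      rcases Finset.mem_insert.1 h with h | h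
      · exact hκN' (h ▸ hl)
      · exact hNs l (hN'N hl) h
    · intro l hl
      push_cast
      have := hN'p l hl
      linarith

theorem contra (hF : IsFree E F δ) (X : CubeApprox E) (H : Dat δ f ν e A B1) {B : ℕ → ℝ}
    (hB : ∀ (s : Finset ℕ) (σ : ℕ → ℝ), (∀ k, |σ k| ≤ 1) → ‖∑ k ∈ s, σ k • ν k‖ ≤ B s.card)
    (hBlim : Tendsto (fun n : ℕ => B n / n) atTop (𝓝 0))
    (hAlim : Tendsto (fun n : ℕ => A n / Real.sqrt n) atTop (𝓝 0))
    (hc0 : ∀ k, 1 / 2 ≤ pair δ (f k) (ν k)) : False := by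
  classical
  have ha := H.hA 1
  -- choose n
  have hq : (0:ℝ) < 1 / (4 * (3 + A 1)) := by positivity
  obtain ⟨n, hn1, hn0⟩ := ((hBlim.eventually (gt_mem_nhds hq)).and (eventually_gt_atTop 0)).exists
  have hnpos : (0:ℝ) < n := by exact_mod_cast hn0
  have hη : (0:ℝ) < 1 / n := by positivity
  obtain ⟨M, hM⟩ : ∃ M : ℕ, ∀ m : ℕ, M < m → 2 * A m < 1 / n * Real.sqrt m := by
    have hη2 : (0:ℝ) < (1 / n) / 2 := by positivity
    obtain ⟨M, hM⟩ := eventually_atTop.1 (hAlim.eventually (gt_mem_nhds hη2))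
    refine ⟨M, fun m hm => ?_⟩
    have h1 := hM m hm.le
    have hmpos : 0 < Real.sqrt m := Real.sqrt_pos.2 (by
      have : 0 < m := by omega
      exact_mod_cast this)
    rw [div_lt_iff₀ hmpos] at h1
    linarith
  obtain ⟨s, g, Θ, Λ, N, hcard, hglip, hgp, hslope, -⟩ :=
    iter hF X H hη hM hc0 (ε := 1 / (4 * n)) (by positivity) n
  have hlip : ∀ σ : ℕ → ℝ, (∀ i, |σ i| ≤ 1) → Lip (3 + A 1) (fun x => ∑ k ∈ s, σ k * g k x) := by
    intro σ hσ
    apply lip_of_slope
    intro x ε' hε'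
    filter_upwards [hslope x ε' hε'] with y hy
    rw [← Finset.sum_sub_distrib]
    have h1 : |∑ k ∈ s, (σ k * g k y - σ k * g k x)| ≤ ∑ k ∈ s, |g k y - g k x| := by
      refine (Finset.abs_sum_le_sum_abs _ _).trans (Finset.sum_le_sum fun k _ => ?_)
      rw [← mul_sub, abs_mul]
      calc |σ k| * |g k y - g k x| ≤ 1 * |g k y - g k x| :=
            mul_le_mul_of_nonneg_right (hσ k) (abs_nonneg _)
        _ = _ := one_mul _
    refine h1.trans (hy.trans (mul_le_mul_of_nonneg_right ?_ (norm_nonneg _)))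
    have h2 : 3 * (1 / (n:ℝ)) * n = 3 := by field_simp
    rw [h2]
    split_ifs <;> linarith
  have hkey := key hF s ν g (B := B n) (C := 3 + A 1) (by positivity)
    (fun σ hσ => by rw [← hcard]; exact hB s σ hσ) hglip hlip
  have hlow : (n:ℝ) * (1 / 4) ≤ ∑ k ∈ s, |pair δ (g k) (ν k)| := by
    calc (n:ℝ) * (1 / 4) = ∑ k ∈ s, (1/4 : ℝ) := by rw [Finset.sum_const, hcard, nsmul_eq_mul]
      _ ≤ _ := Finset.sum_le_sum fun k hk => by
          have h1 := hgp k hk
          have h2 : (n:ℝ) * (1 / (4 * n)) = 1 / 4 := by field_simp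
          rw [h2] at h1
          have := le_abs_self (pair δ (g k) (ν k))
          linarith
  rw [div_lt_iff₀ hnpos] at hn1
  have h3 : (3 + A 1) * B n < (3 + A 1) * (1 / (4 * (3 + A 1)) * n) :=
    mul_lt_mul_of_pos_left hn1 (by positivity)
  have h4 : (3 + A 1) * (1 / (4 * (3 + A 1)) * n) = n * (1 / 4) := by field_simp
  linarith

end

end Pool.Agent.Helper72.FC
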