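import Mathlib

/-! # Khinchine's inequality (L¹–L², by the fourth moment) and a counting lemma -/

namespace Pool.Agent.Helper72.FC

open Finset

noncomputable section

/-- signed sum -/
def D (s t : Finset ℕ) (a : ℕ → ℝ) : ℝ := ∑ i ∈ s, (if i ∈ t then 1 else -1) * a i

theorem D_insert_left {s t : Finset ℕ} {x : ℕ} (hx : x ∉ s) (ht : t ⊆ s) (a : ℕ → ℝ) :
    D (insert x s) t a = -a x + D s t a := by
  unfold D
  rw [sum_insert hx, if_neg (fun h => hx (ht h))]; ring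

theorem D_insert_both {s t : Finset ℕ} {x : ℕ} (hx : x ∉ s) (a : ℕ → ℝ) :
    D (insert x s) (insert x t) a = a x + D s t a := by
  unfold D
  rw [sum_insert hx, if_pos (mem_insert_self x t)]
  congr 1
  · ring
  · refine sum_congr rfl fun i hi => ?_
    have hne : i ≠ x := fun h => hx (h ▸ hi)
    have : i ∈ insert x t ↔ i ∈ t := by simp [hne]
    simp only [this]

theorem moment_two (s : Finset ℕ) (a : ℕ → ℝ) :
    ∑ t ∈ s.powerset, (D s t a) ^ 2 = 2 ^ s.card * ∑ i ∈ s, a i ^ 2 := by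
  induction s using Finset.induction_on with
  | empty => simp [D]
  | insert x s hx ih =>
    rw [sum_powerset_insert hx, card_insert_of_notMem hx, sum_insert hx]
    have e1 : ∑ t ∈ s.powerset, (D (insert x s) t a) ^ 2 = ∑ t ∈ s.powerset, (-a x + D s t a) ^ 2 :=
      sum_congr rfl fun t ht => by rw [D_insert_left hx (mem_powerset.1 ht)]
    have e2 : ∑ t ∈ s.powerset, (D (insert x s) (insert x t) a) ^ 2 =
        ∑ t ∈ s.powerset, (a x + D s t a) ^ 2 :=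
      sum_congr rfl fun t _ => by rw [D_insert_both hx]
    rw [e1, e2, ← sum_add_distrib]
    have e3 : ∀ t ∈ s.powerset, (-a x + D s t a) ^ 2 + (a x + D s t a) ^ 2 =
        2 * a x ^ 2 + 2 * (D s t a) ^ 2 := fun t _ => by ring
    rw [sum_congr rfl e3, sum_add_distrib, ← mul_sum _ _ (2:ℝ), ← mul_sum _ _ (2:ℝ), ih, sum_const,
      card_powerset, nsmul_eq_mul]
    push_cast
    ring

theorem moment_four (s : Finset ℕ) (a : ℕ → ℝ) :
    ∑ t ∈ s.powerset, (D s t a) ^ 4 ≤ 3 * 2 ^ s.card * (∑ i ∈ s, a i ^ 2) ^ 2 := by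
  induction s using Finset.induction_on with
  | empty => simp [D]
  | insert x s hx ih =>
    rw [sum_powerset_insert hx, card_insert_of_notMem hx, sum_insert hx]
    have e1 : ∑ t ∈ s.powerset, (D (insert x s) t a) ^ 4 = ∑ t ∈ s.powerset, (-a x + D s t a) ^ 4 :=
      sum_congr rfl fun t ht => by rw [D_insert_left hx (mem_powerset.1 ht)]
    have e2 : ∑ t ∈ s.powerset, (D (insert x s) (insert x t) a) ^ 4 =
        ∑ t ∈ s.powerset, (a x + D s t a) ^ 4 :=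
      sum_congr rfl fun t _ => by rw [D_insert_both hx]
    rw [e1, e2, ← sum_add_distrib]
    have e3 : ∀ t ∈ s.powerset, (-a x + D s t a) ^ 4 + (a x + D s t a) ^ 4 =
        2 * a x ^ 4 + (12 * a x ^ 2 * (D s t a) ^ 2 + 2 * (D s t a) ^ 4) := fun t _ => by ring
    rw [sum_congr rfl e3, sum_add_distrib, sum_add_distrib, ← mul_sum _ _ (2:ℝ),
      ← mul_sum _ _ (12 * a x ^ 2), ← mul_sum _ _ (2:ℝ), moment_two,
      sum_const, card_powerset, nsmul_eq_mul]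
    push_cast
    set Q := ∑ i ∈ s, a i ^ 2 with hQ
    have hQ0 : 0 ≤ Q := sum_nonneg fun i _ => sq_nonneg _
    have h2 : (0:ℝ) < 2 ^ s.card := by positivity
    have h3 : 0 ≤ (2:ℝ) ^ s.card * (a x ^ 2) ^ 2 := by positivity
    have h4 : 3 * (2:ℝ) ^ (s.card + 1) * (a x ^ 2 + Q) ^ 2 = 6 * (2 ^ s.card * (a x ^ 2) ^ 2) +
      12 * a x ^ 2 * (2 ^ s.card * Q) + 2 * (3 * 2 ^ s.card * Q ^ 2) := by ring
    have h5 : 2 * ((2:ℝ) ^ s.card * a x ^ 4) = 2 * (2 ^ s.card * (a x ^ 2) ^ 2) := by ring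
    rw [h4, h5]
    linarith

theorem abs_lower (u l : ℝ) (hl : 0 < l) : (3 * u ^ 2 / l - u ^ 4 / l ^ 3) / 2 ≤ |u| := by
  have h : ∀ v : ℝ, 0 ≤ v → 3 * v ^ 2 - v ^ 4 ≤ 2 * v := by
    intro v hv
    nlinarith [mul_nonneg hv (sq_nonneg (v - 1)), mul_nonneg (mul_nonneg hv hv) (sq_nonneg (v - 1))]
  have h1 := h (|u| / l) (by positivity)
  have h2 : (|u| / l) ^ 2 = u ^ 2 / l ^ 2 := by rw [div_pow, sq_abs]
  have h3 : (|u| / l) ^ 4 = u ^ 4 / l ^ 4 := by
    rw [div_pow]; congr 1; rw [show (4:ℕ) = 2 * 2 from rfl, pow_mul, sq_abs, ← pow_mul]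
  rw [h2, h3] at h1
  have h4 := mul_le_mul_of_nonneg_right h1 hl.le
  have h5 : (3 * (u ^ 2 / l ^ 2) - u ^ 4 / l ^ 4) * l = 3 * u ^ 2 / l - u ^ 4 / l ^ 3 := by
    field_simp
  have h6 : 2 * (|u| / l) * l = 2 * |u| := by field_simp
  rw [h5, h6] at h4
  linarith

/-- Khinchine with constant `1/2`. -/
theorem khinchine (s : Finset ℕ) (a : ℕ → ℝ) :
    2 ^ s.card * (Real.sqrt (∑ i ∈ s, a i ^ 2) / 2) ≤ ∑ t ∈ s.powerset, |D s t a| := by
  set Q := ∑ i ∈ s, a i ^ 2 with hQ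
  have hQ0 : 0 ≤ Q := sum_nonneg fun i _ => sq_nonneg _
  rcases hQ0.eq_or_lt with h0 | h0
  · rw [← h0]; simp only [Real.sqrt_zero, zero_div, mul_zero]
    exact sum_nonneg fun t _ => abs_nonneg _
  have hq : 0 < Real.sqrt Q := Real.sqrt_pos.2 h0
  set q := Real.sqrt Q with hqdef
  have hqq : q ^ 2 = Q := Real.sq_sqrt hQ0
  set l := 2 * q with hl
  have hlpos : 0 < l := by positivity
  have h1 : ∑ t ∈ s.powerset, (3 * (D s t a) ^ 2 / l - (D s t a) ^ 4 / l ^ 3) / 2 ≤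
      ∑ t ∈ s.powerset, |D s t a| := sum_le_sum fun t _ => abs_lower _ _ hlpos
  have h2 : ∑ t ∈ s.powerset, (3 * (D s t a) ^ 2 / l - (D s t a) ^ 4 / l ^ 3) / 2 =
      (3 / l * ∑ t ∈ s.powerset, (D s t a) ^ 2 - 1 / l ^ 3 * ∑ t ∈ s.powerset, (D s t a) ^ 4) / 2 := by
    rw [mul_sum, mul_sum, ← sum_sub_distrib, sum_div]
    exact sum_congr rfl fun t _ => by ring
  rw [h2, moment_two] at h1
  have h3 := moment_four s a
  have h4 : 1 / l ^ 3 * ∑ t ∈ s.powerset, (D s t a) ^ 4 ≤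
      1 / l ^ 3 * (3 * 2 ^ s.card * Q ^ 2) := mul_le_mul_of_nonneg_left h3 (by positivity)
  have h5 : (3 / l * (2 ^ s.card * Q) - 1 / l ^ 3 * (3 * 2 ^ s.card * Q ^ 2)) / 2 =
      2 ^ s.card * (q * (9 / 16)) := by
    rw [hl, ← hqq]; field_simp; ring
  have h6 : (0:ℝ) < 2 ^ s.card := by positivity
  have h7 : (2:ℝ) ^ s.card * (q / 2) ≤ 2 ^ s.card * (q * (9 / 16)) := by
    apply mul_le_mul_of_nonneg_left _ h6.le; linarith
  linarith

/-- Counting lemma: vectors of `ℓ₁`-norm at least `η` all of whose signed sums have `ℓ₁`-norm at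
most `A`: there are at most `(2A/η)²` of them. -/
theorem count (d : ℕ) (s : Finset ℕ) (v : ℕ → Fin d → ℝ) {η A : ℝ}
    (hv : ∀ k ∈ s, η ≤ ∑ j, |v k j|)
    (hA : ∀ σ : ℕ → ℝ, (∀ k, |σ k| ≤ 1) → ∑ j, |∑ k ∈ s, σ k * v k j| ≤ A) :
    η * Real.sqrt s.card ≤ 2 * A := by
  rcases s.eq_empty_or_nonempty with h0 | hne
  · subst h0
    have := hA (fun _ => 0) (by simp)
    simp at this ⊢
    exact this
  have hn : 0 < (s.card : ℝ) := by exact_mod_cast hne.card_pos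
  have hsn : 0 < Real.sqrt s.card := Real.sqrt_pos.2 hn
  -- averaging
  have h1 : ∑ t ∈ s.powerset, ∑ j, |D s t (fun k => v k j)| ≤ 2 ^ s.card * A := by
    calc ∑ t ∈ s.powerset, ∑ j, |D s t (fun k => v k j)| ≤ ∑ t ∈ s.powerset, A := by
          refine sum_le_sum fun t _ => ?_
          exact hA (fun i => if i ∈ t then 1 else -1) (fun k => by split_ifs <;> simp)
      _ = 2 ^ s.card * A := by rw [sum_const, card_powerset, nsmul_eq_mul]; push_cast; ring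
  rw [sum_comm] at h1
  have h2 : ∑ j, 2 ^ s.card * (Real.sqrt (∑ k ∈ s, v k j ^ 2) / 2) ≤
      ∑ j, ∑ t ∈ s.powerset, |D s t (fun k => v k j)| :=
    sum_le_sum fun j _ => khinchine s (fun k => v k j)
  rw [← mul_sum, ← sum_div] at h2
  have h6 : (0:ℝ) < 2 ^ s.card := by positivity
  have h3 : (∑ j, Real.sqrt (∑ k ∈ s, v k j ^ 2)) / 2 ≤ A :=
    le_of_mul_le_mul_left (h2.trans h1) h6
  have h4 : ∀ j, ∑ k ∈ s, |v k j| ≤ Real.sqrt s.card * Real.sqrt (∑ k ∈ s, v k j ^ 2) := by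
    intro j
    rw [← Real.sqrt_mul hn.le]
    apply Real.le_sqrt_of_sq_le
    have := sq_sum_le_card_mul_sum_sq (s := s) (f := fun k => |v k j|)
    simpa using this
  have h5 : (s.card : ℝ) * η ≤ Real.sqrt s.card * ∑ j, Real.sqrt (∑ k ∈ s, v k j ^ 2) := by
    calc (s.card : ℝ) * η = ∑ k ∈ s, η := by rw [sum_const, nsmul_eq_mul]
      _ ≤ ∑ k ∈ s, ∑ j, |v k j| := sum_le_sum hv
      _ = ∑ j, ∑ k ∈ s, |v k j| := sum_comm
      _ ≤ ∑ j, Real.sqrt s.card * Real.sqrt (∑ k ∈ s, v k j ^ 2) := sum_le_sum fun j _ => h4 j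
      _ = _ := by rw [mul_sum]
  have h7 : Real.sqrt s.card * (η * Real.sqrt s.card) ≤
      Real.sqrt s.card * ∑ j, Real.sqrt (∑ k ∈ s, v k j ^ 2) := by
    calc Real.sqrt s.card * (η * Real.sqrt s.card) = (s.card : ℝ) * η := by
          rw [mul_comm η, ← mul_assoc, Real.mul_self_sqrt hn.le]
      _ ≤ _ := h5
  have h8 := le_of_mul_le_mul_left h7 hsn
  linarith

end

end Pool.Agent.Helper72.FC
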