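import Pool.Agent.Helper72.FC.C0

/-! # `ℓ_p`, `1 < p < 2`, is not complemented in the free space of a cube-approximable space -/

namespace Pool.Agent.Helper72.FC

open Filter Topology ContinuousLinearMap
open scoped ENNReal

set_option linter.unusedSectionVars false

noncomputable section

/-- `ℓ_p` -/
abbrev Lsp (p : ℝ≥0∞) : Type := lp (fun _ : ℕ => ℝ) p

theorem toReal_gt {p : ℝ≥0∞} (h1 : 1 < p) (h2 : p < 2) : 1 < p.toReal ∧ p.toReal < 2 := by
  have hp : p ≠ ∞ := (h2.trans (by norm_num)).ne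
  constructor
  · rw [← ENNReal.toReal_one]
    exact (ENNReal.toReal_lt_toReal (by norm_num) hp).2 h1
  · rw [← ENNReal.toReal_ofNat]
    exact (ENNReal.toReal_lt_toReal hp (by norm_num)).2 h2

theorem sum_abs_le {p : ℝ≥0∞} [Fact (1 ≤ p)] (h1 : 1 < p) (h2 : p < 2) (w : Lsp p)
    (s : Finset ℕ) :
    ∑ k ∈ s, |w k| ≤ (s.card : ℝ) ^ ((p.toReal - 1) / p.toReal) * ‖w‖ := by
  obtain ⟨hp1, hp2⟩ := toReal_gt h1 h2
  have hp0 : 0 < p.toReal := by linarith
  have e1 := Real.rpow_sum_le_const_mul_sum_rpow s (fun k => w k) hp1.le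
  have e2 := lp.sum_rpow_le_norm_rpow hp0 w s
  simp only [Real.norm_eq_abs] at e2
  have e3 : (∑ k ∈ s, |w k|) ^ p.toReal ≤
      (s.card : ℝ) ^ (p.toReal - 1) * ‖w‖ ^ p.toReal :=
    e1.trans (mul_le_mul_of_nonneg_left e2 (by positivity))
  have e4 : ((s.card : ℝ) ^ ((p.toReal - 1) / p.toReal) * ‖w‖) ^ p.toReal =
      (s.card : ℝ) ^ (p.toReal - 1) * ‖w‖ ^ p.toReal := by
    rw [Real.mul_rpow (by positivity) (norm_nonneg _), ← Real.rpow_mul (by positivity)]
    congr 2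
    field_simp
  rw [← e4] at e3
  exact (Real.rpow_le_rpow_iff (Finset.sum_nonneg fun _ _ => abs_nonneg _)
    (by positivity) hp0).1 e3

theorem norm_signs_le {p : ℝ≥0∞} [Fact (1 ≤ p)] (h1 : 1 < p) (h2 : p < 2) (s : Finset ℕ)
    (σ : ℕ → ℝ) (hσ : ∀ k, |σ k| ≤ 1) :
    ‖∑ k ∈ s, σ k • (lp.single p k (1:ℝ) : Lsp p)‖ ≤ (s.card : ℝ) ^ (1 / p.toReal) := by
  obtain ⟨hp1, hp2⟩ := toReal_gt h1 h2
  have hp0 : 0 < p.toReal := by linarith
  have e0 : ∑ k ∈ s, σ k • (lp.single p k (1:ℝ) : Lsp p) = ∑ k ∈ s, lp.single p k (σ k) := by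
    refine Finset.sum_congr rfl fun k _ => ?_
    rw [← lp.single_smul, smul_eq_mul, mul_one]
  rw [e0]
  have e1 := lp.norm_sum_single (p := p) hp0 (fun k => σ k) s
  have e2 : ∑ k ∈ s, ‖σ k‖ ^ p.toReal ≤ s.card := by
    calc ∑ k ∈ s, ‖σ k‖ ^ p.toReal ≤ ∑ k ∈ s, (1:ℝ) := Finset.sum_le_sum fun k _ =>
          Real.rpow_le_one (norm_nonneg _) (hσ k) hp0.le
      _ = s.card := by simp
  rw [← e1] at e2
  have e4 : ((s.card : ℝ) ^ (1 / p.toReal)) ^ p.toReal = s.card := by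
    rw [← Real.rpow_mul (by positivity)]
    rw [one_div, inv_mul_cancel₀ hp0.ne', Real.rpow_one]
  rw [← e4] at e2
  exact (Real.rpow_le_rpow_iff (norm_nonneg _) (by positivity) hp0).1 e2

theorem rpow_div_tendsto {a b : ℝ} (hab : a < b) (c : ℝ) :
    Tendsto (fun n : ℕ => c * (n:ℝ) ^ a / (n:ℝ) ^ b) atTop (𝓝 0) := by
  have h1 : Tendsto (fun n : ℕ => c * (n:ℝ) ^ (-(b - a))) atTop (𝓝 0) := by
    have := (tendsto_rpow_neg_atTop (sub_pos.2 hab)).comp tendsto_natCast_atTop_atTop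
    simpa using this.const_mul c
  refine h1.congr' ?_
  filter_upwards [eventually_gt_atTop 0] with n hn
  have hn' : (0:ℝ) < n := by exact_mod_cast hn
  rw [neg_sub, Real.rpow_sub hn', mul_div_assoc]

variable {E F : Type} [NormedAddCommGroup E] [NormedSpace ℝ E]
    [NormedAddCommGroup F] [NormedSpace ℝ F] {δ : E → F}

theorem lp_not_complemented (hF : IsFree E F δ) (X : CubeApprox E) {p : ℝ≥0∞} [Fact (1 ≤ p)]
    (h1 : 1 < p) (h2 : p < 2) (S : Lsp p →L[ℝ] F) (T : F →L[ℝ] Lsp p)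
    (hTS : ∀ v, T (S v) = v) : False := by
  obtain ⟨hp1, hp2⟩ := toReal_gt h1 h2
  have hp0 : 0 < p.toReal := by linarith
  refine obstruction hF X (f := fun k x => T (δ x) k) (μ := fun k => S (lp.single p k (1:ℝ)))
    (A := fun n => ‖T‖ * (n:ℝ) ^ ((p.toReal - 1) / p.toReal))
    (B := fun n => ‖S‖ * (n:ℝ) ^ (1 / p.toReal)) ?_ ?_ ?_ ?_ ?_ ?_ ?_
  · intro k
    simp [hF.base]
  · intro n; positivity
  · intro s x y
    have e1 : ∀ k, T (δ x) k - T (δ y) k = (T (δ x - δ y)) k := by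
      intro k; rw [map_sub]; rfl
    simp only [e1]
    refine (sum_abs_le h1 h2 _ s).trans ?_
    have e2 : ‖T (δ x - δ y)‖ ≤ ‖T‖ * ‖x - y‖ := by
      refine (T.le_opNorm _).trans (mul_le_mul_of_nonneg_left ?_ (norm_nonneg _))
      have := hF.lip.dist_le_mul x y
      rw [dist_eq_norm, dist_eq_norm] at this
      simpa using this
    calc _ ≤ (s.card : ℝ) ^ ((p.toReal - 1) / p.toReal) * (‖T‖ * ‖x - y‖) :=
          mul_le_mul_of_nonneg_left e2 (by positivity)
      _ = _ := by ring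
  · intro s σ hσ
    have e1 : ∑ k ∈ s, σ k • S (lp.single p k (1:ℝ)) =
        S (∑ k ∈ s, σ k • (lp.single p k (1:ℝ) : Lsp p)) := by
      rw [map_sum]; exact Finset.sum_congr rfl fun k _ => by rw [map_smul]
    rw [e1]
    exact (S.le_opNorm _).trans (mul_le_mul_of_nonneg_left (norm_signs_le h1 h2 s σ hσ)
      (norm_nonneg _))
  · have hlt : (p.toReal - 1) / p.toReal < 1 / 2 := by
      rw [div_lt_div_iff₀ hp0 (by norm_num)]; linarith
    have := rpow_div_tendsto hlt ‖T‖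
    refine this.congr fun n => ?_
    rw [Real.sqrt_eq_rpow]
  · have hlt : 1 / p.toReal < 1 := by rw [div_lt_one hp0]; exact hp1
    have := rpow_div_tendsto hlt ‖S‖
    refine this.congr fun n => ?_
    rw [Real.rpow_one]
  · intro k
    -- the pairing is the coordinate functional composed with `T`
    have e1 : pair δ (fun x => T (δ x) k) = (lp.evalCLM ℝ (fun _ : ℕ => ℝ) p k).comp T := by
      apply pair_eq hF
      intro x
      have e2 : T (δ 0) = 0 := by rw [hF.base, map_zero]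
      rw [e2]
      show T (δ x) k = T (δ x) k - (0 : Lsp p) k
      simp
    rw [e1, ContinuousLinearMap.comp_apply, hTS]
    show (1:ℝ) ≤ (lp.single p k (1:ℝ) : Lsp p) k
    simp

end

end Pool.Agent.Helper72.FC
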