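import Pool.Agent.Helper72.FC.Free

/-! # Mollification of Lipschitz functions on `Fin d → ℝ` -/

namespace Pool.Agent.Helper72.FC

open MeasureTheory Filter Topology ContinuousLinearMap
open scoped Convolution

set_option linter.unusedSectionVars false

noncomputable section

/-- Convolution of a continuous compactly supported kernel with a Lipschitz function is
Lipschitz. -/
theorem conv_lip {d : ℕ} {W V : Type} [NormedAddCommGroup W] [NormedSpace ℝ W]
    [NormedAddCommGroup V] [NormedSpace ℝ V] (L : W →L[ℝ] ℝ →L[ℝ] V)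
    {f : (Fin d → ℝ) → W} (hf : Continuous f) (hcf : HasCompactSupport f)
    {G : (Fin d → ℝ) → ℝ} {C : ℝ} (hG : Lip C G) (x y : Fin d → ℝ) :
    ‖(f ⋆[L, volume] G) x - (f ⋆[L, volume] G) y‖ ≤
      (∫ t, ‖L (f t)‖ * C) * ‖x - y‖ := by
  have hGc : Continuous G := hG.continuous
  have hex : ConvolutionExists f G L volume :=
    hcf.convolutionExists_left L hf hGc.locallyIntegrable
  have h1 := (hex x).integrable
  have h2 := (hex y).integrable
  rw [convolution_def, convolution_def, ← integral_sub h1 h2, ← integral_mul_const]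
  have hint : Integrable (fun t => ‖L (f t)‖ * C * ‖x - y‖) volume := by
    have hc : Continuous fun t => ‖L (f t)‖ := (L.continuous.comp hf).norm
    have hcs : HasCompactSupport fun t => ‖L (f t)‖ := by
      apply HasCompactSupport.norm
      exact hcf.comp_left (g := fun w => L w) (map_zero L)
    exact ((hc.integrable_of_hasCompactSupport hcs).mul_const C).mul_const _
  apply norm_integral_le_of_norm_le hint
  refine Eventually.of_forall fun t => ?_
  rw [← map_sub]
  have e1 := (L (f t)).le_opNorm (G (x - t) - G (y - t))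
  have e2 : ‖G (x - t) - G (y - t)‖ ≤ C * ‖x - y‖ := by
    have := hG (x - t) (y - t)
    rw [sub_sub_sub_cancel_right] at this
    rw [Real.norm_eq_abs]; exact this
  calc ‖L (f t) (G (x - t) - G (y - t))‖ ≤ ‖L (f t)‖ * ‖G (x - t) - G (y - t)‖ := e1
    _ ≤ ‖L (f t)‖ * (C * ‖x - y‖) := mul_le_mul_of_nonneg_left e2 (norm_nonneg _)
    _ = _ := by ring

/-- the bump of radius `r` -/
def bump (d : ℕ) (r : ℝ) (hr : 0 < r) : ContDiffBump (0 : Fin d → ℝ) :=
  ⟨r / 2, r, by linarith, by linarith⟩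

/-- mollification at scale `r` -/
def moll (d : ℕ) (r : ℝ) (hr : 0 < r) (G : (Fin d → ℝ) → ℝ) : (Fin d → ℝ) → ℝ :=
  ((bump d r hr).normed volume ⋆[lsmul ℝ ℝ, volume] G)

variable {d : ℕ} {r : ℝ} (hr : 0 < r)

theorem moll_lip {C : ℝ} {G : (Fin d → ℝ) → ℝ} (hG : Lip C G) : Lip C (moll d r hr G) := by
  intro x y
  have h := conv_lip (lsmul ℝ ℝ) (f := (bump d r hr).normed volume)
    (ContDiffBump.continuous_normed _) (ContDiffBump.hasCompactSupport_normed _) hG x y
  rw [Real.norm_eq_abs] at h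
  have e : (∫ t, ‖(lsmul ℝ ℝ : ℝ →L[ℝ] ℝ →L[ℝ] ℝ) ((bump d r hr).normed volume t)‖ * C) = C := by
    have : ∀ t, ‖(lsmul ℝ ℝ : ℝ →L[ℝ] ℝ →L[ℝ] ℝ) ((bump d r hr).normed volume t)‖ =
        (bump d r hr).normed volume t := by
      intro t
      have h1 : ‖(lsmul ℝ ℝ : ℝ →L[ℝ] ℝ →L[ℝ] ℝ) ((bump d r hr).normed volume t)‖ =
        ‖(bump d r hr).normed volume t‖ := by
        rw [ContinuousLinearMap.opNorm_lsmul_apply]
      rw [h1, Real.norm_eq_abs, abs_of_nonneg (ContDiffBump.nonneg_normed _ _)]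
    simp only [this]
    rw [integral_mul_const, ContDiffBump.integral_normed, one_mul]
  rw [e] at h
  exact h

theorem moll_close {C : ℝ} {G : (Fin d → ℝ) → ℝ} (hC : 0 ≤ C) (hG : Lip C G) (x : Fin d → ℝ) :
    |moll d r hr G x - G x| ≤ C * r := by
  have h := ContDiffBump.dist_normed_convolution_le (φ := bump d r hr) (μ := volume) (g := G)
    (x₀ := x) (ε := C * r) hG.continuous.aestronglyMeasurable (by
      intro y hy
      rw [Metric.mem_ball, dist_eq_norm] at hy
      rw [Real.dist_eq]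
      exact (hG y x).trans (mul_le_mul_of_nonneg_left hy.le hC))
  rw [Real.dist_eq] at h
  exact h

theorem moll_sum {C : ℕ → ℝ} {G : ℕ → (Fin d → ℝ) → ℝ} (s : Finset ℕ) (a : ℕ → ℝ)
    (hG : ∀ k ∈ s, Lip (C k) (G k)) (x : Fin d → ℝ) :
    moll d r hr (fun x => ∑ k ∈ s, a k * G k x) x = ∑ k ∈ s, a k * moll d r hr (G k) x := by
  unfold moll
  simp only [convolution_def]
  have hex : ∀ k ∈ s, Integrable (fun t => (lsmul ℝ ℝ : ℝ →L[ℝ] ℝ →L[ℝ] ℝ)
      ((bump d r hr).normed volume t) (G k (x - t))) volume := fun k hk =>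
    ((ContDiffBump.hasCompactSupport_normed _).convolutionExists_left (lsmul ℝ ℝ)
      (ContDiffBump.continuous_normed _) (hG k hk).continuous.locallyIntegrable x).integrable
  have e1 : ∀ t, (lsmul ℝ ℝ : ℝ →L[ℝ] ℝ →L[ℝ] ℝ)
      ((bump d r hr).normed volume t) (∑ k ∈ s, a k * G k (x - t)) =
      ∑ k ∈ s, a k * (lsmul ℝ ℝ : ℝ →L[ℝ] ℝ →L[ℝ] ℝ)
      ((bump d r hr).normed volume t) (G k (x - t)) := by
    intro t
    simp only [lsmul_apply, smul_eq_mul, Finset.mul_sum]
    exact Finset.sum_congr rfl fun k _ => by ring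
  simp only [e1]
  rw [integral_finsetSum s (fun k hk => (hex k hk).const_mul (a k))]
  exact Finset.sum_congr rfl fun k _ => integral_const_mul _ _

/-- The mollified function is differentiable with Lipschitz derivative. -/
theorem moll_deriv {C : ℝ} {G : (Fin d → ℝ) → ℝ} (hG : Lip C G) :
    Differentiable ℝ (moll d r hr G) ∧
    ∃ K : ℝ, ∀ x y, ‖fderiv ℝ (moll d r hr G) x - fderiv ℝ (moll d r hr G) y‖ ≤ K * ‖x - y‖ := by
  have hcs : HasCompactSupport ((bump d r hr).normed (volume : Measure (Fin d → ℝ))) :=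
    ContDiffBump.hasCompactSupport_normed _
  have hcd : ContDiff ℝ 1 ((bump d r hr).normed (volume : Measure (Fin d → ℝ))) :=
    ContDiffBump.contDiff_normed _ (n := 1)
  have hder : ∀ x, HasFDerivAt (moll d r hr G)
      ((fderiv ℝ ((bump d r hr).normed volume) ⋆[(lsmul ℝ ℝ).precompL (Fin d → ℝ), volume] G) x) x :=
    fun x => hcs.hasFDerivAt_convolution_left (lsmul ℝ ℝ) hcd hG.continuous.locallyIntegrable x
  have key := fun x y => conv_lip ((lsmul ℝ ℝ : ℝ →L[ℝ] ℝ →L[ℝ] ℝ).precompL (Fin d → ℝ))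
    (hcd.continuous_fderiv one_ne_zero) (hcs.fderiv ℝ) hG x y
  obtain ⟨K, hK⟩ : ∃ K : ℝ, ∀ x y, ‖(fderiv ℝ ((bump d r hr).normed volume)
      ⋆[(lsmul ℝ ℝ).precompL (Fin d → ℝ), volume] G) x - (fderiv ℝ ((bump d r hr).normed volume)
      ⋆[(lsmul ℝ ℝ).precompL (Fin d → ℝ), volume] G) y‖ ≤ K * ‖x - y‖ := ⟨_, key⟩
  refine ⟨fun x => (hder x).differentiableAt, K, fun x y => ?_⟩
  rw [(hder x).fderiv, (hder y).fderiv]
  exact hK x y

end

end Pool.Agent.Helper72.FC
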