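import Pool.Agent.Helper72.FC.Mollify
import Pool.Agent.Helper72.FC.Khin

/-! # ℓ₁-slopes of smooth functions on the cube `Fin d → ℝ` -/

namespace Pool.Agent.Helper72.FC

open Filter Topology ContinuousLinearMap

set_option linter.unusedSectionVars false

noncomputable section

variable {d : ℕ}

/-- `ℓ₁`-norm of the gradient. -/
def slope1 (H : (Fin d → ℝ) → ℝ) (x : Fin d → ℝ) : ℝ := ∑ j, |fderiv ℝ H x (Pi.single j 1)|

theorem slope1_nonneg (H : (Fin d → ℝ) → ℝ) (x : Fin d → ℝ) : 0 ≤ slope1 H x :=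
  Finset.sum_nonneg fun _ _ => abs_nonneg _

theorem clm_expand (L : (Fin d → ℝ) →L[ℝ] ℝ) (h : Fin d → ℝ) :
    L h = ∑ j, h j * L (Pi.single j 1) := by
  conv_lhs => rw [show h = ∑ j, h j • (Pi.single j (1:ℝ) : Fin d → ℝ) from by
    ext i; simp [Finset.sum_apply, Pi.single_apply]]
  rw [map_sum]
  exact Finset.sum_congr rfl fun j _ => by rw [map_smul, smul_eq_mul]

theorem abs_clm_le (L : (Fin d → ℝ) →L[ℝ] ℝ) (h : Fin d → ℝ) :
    |L h| ≤ (∑ j, |L (Pi.single j 1)|) * ‖h‖ := by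
  rw [clm_expand L h, Finset.sum_mul]
  refine (Finset.abs_sum_le_sum_abs _ _).trans (Finset.sum_le_sum fun j _ => ?_)
  rw [abs_mul, mul_comm]
  exact mul_le_mul_of_nonneg_left (norm_le_pi_norm h j) (abs_nonneg _)

theorem sum_abs_clm_le (L : (Fin d → ℝ) →L[ℝ] ℝ) {A : ℝ} (hL : ‖L‖ ≤ A) :
    ∑ j, |L (Pi.single j 1)| ≤ A := by
  set h : Fin d → ℝ := fun j => if 0 ≤ L (Pi.single j 1) then 1 else -1 with hh
  have h1 : L h = ∑ j, |L (Pi.single j 1)| := by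
    rw [clm_expand L h]
    refine Finset.sum_congr rfl fun j _ => ?_
    rw [hh]; dsimp only
    split_ifs with h0
    · rw [one_mul, abs_of_nonneg h0]
    · rw [abs_of_neg (not_le.1 h0)]; ring
  have h2 : ‖h‖ ≤ 1 := by
    rw [pi_norm_le_iff_of_nonneg zero_le_one]
    intro j
    rw [hh]; dsimp only; split_ifs <;> simp
  have h3 := L.le_opNorm h
  rw [h1, Real.norm_eq_abs] at h3
  have h0 : 0 ≤ A := (norm_nonneg _).trans hL
  calc ∑ j, |L (Pi.single j 1)| ≤ |(∑ j, |L (Pi.single j 1)|)| := le_abs_self _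
    _ ≤ ‖L‖ * ‖h‖ := h3
    _ ≤ A * 1 := mul_le_mul hL h2 (norm_nonneg _) h0
    _ = A := mul_one A

/-- pointwise slope bound -/
theorem slope_bound {H : (Fin d → ℝ) → ℝ} (hH : Differentiable ℝ H) (x : Fin d → ℝ)
    {ε : ℝ} (hε : 0 < ε) : ∀ᶠ y in 𝓝 x, |H y - H x| ≤ (slope1 H x + ε) * ‖y - x‖ := by
  have h1 := (hH x).hasFDerivAt.isLittleO.def hε
  filter_upwards [h1] with y hy
  rw [Real.norm_eq_abs] at hy
  have h2 := abs_clm_le (fderiv ℝ H x) (y - x)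
  have h3 : H y - H x = (H y - H x - fderiv ℝ H x (y - x)) + fderiv ℝ H x (y - x) := by ring
  rw [h3]
  refine (abs_add_le _ _).trans ?_
  have : (slope1 H x + ε) * ‖y - x‖ = ε * ‖y - x‖ + slope1 H x * ‖y - x‖ := by ring
  rw [this]
  exact add_le_add hy h2

theorem sum_fderiv_le {H : ℕ → (Fin d → ℝ) → ℝ} (s : Finset ℕ)
    (hH : ∀ k ∈ s, Differentiable ℝ (H k)) (σ : ℕ → ℝ) {A : ℝ} (hA : 0 ≤ A)
    (hL : Lip A (fun x => ∑ k ∈ s, σ k * H k x)) (x : Fin d → ℝ) :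
    ∑ j, |∑ k ∈ s, σ k * fderiv ℝ (H k) x (Pi.single j 1)| ≤ A := by
  have h1 : HasFDerivAt (fun x => ∑ k ∈ s, σ k * H k x) (∑ k ∈ s, σ k • fderiv ℝ (H k) x) x := by
    apply HasFDerivAt.fun_sum
    intro k hk
    exact ((hH k hk) x).hasFDerivAt.const_mul (σ k)
  have h2 : ‖∑ k ∈ s, σ k • fderiv ℝ (H k) x‖ ≤ A := by
    have := norm_fderiv_le_of_lipschitz ℝ hL.lipschitzWith (x₀ := x)
    rw [h1.fderiv, Real.coe_toNNReal A hA] at this
    exact this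
  have h3 := sum_abs_clm_le _ h2
  simpa [smul_eq_mul] using h3

theorem slope1_le {H : (Fin d → ℝ) → ℝ} {A : ℝ} (hA : 0 ≤ A)
    (hL : Lip A H) (x : Fin d → ℝ) : slope1 H x ≤ A := by
  have h2 : ‖fderiv ℝ H x‖ ≤ A := by
    have := norm_fderiv_le_of_lipschitz ℝ hL.lipschitzWith (x₀ := x)
    rwa [Real.coe_toNNReal A hA] at this
  exact sum_abs_clm_le _ h2

theorem slope1_lip {H : (Fin d → ℝ) → ℝ} {K : ℝ}
    (hK : ∀ x y, ‖fderiv ℝ H x - fderiv ℝ H y‖ ≤ K * ‖x - y‖) :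
    Lip (d * K) (slope1 H) := by
  intro x y
  unfold slope1
  rw [← Finset.sum_sub_distrib]
  refine (Finset.abs_sum_le_sum_abs _ _).trans ?_
  have h1 : ∀ j : Fin d, |(|fderiv ℝ H x (Pi.single j 1)| - |fderiv ℝ H y (Pi.single j 1)|)| ≤
      K * ‖x - y‖ := by
    intro j
    refine (abs_abs_sub_abs_le_abs_sub _ _).trans ?_
    have e1 : fderiv ℝ H x (Pi.single j 1) - fderiv ℝ H y (Pi.single j 1) =
      (fderiv ℝ H x - fderiv ℝ H y) (Pi.single j 1) := by simp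
    rw [e1]
    have e2 := (fderiv ℝ H x - fderiv ℝ H y).le_opNorm (Pi.single j 1)
    have e3 : ‖(Pi.single j 1 : Fin d → ℝ)‖ ≤ 1 := by
      rw [Pi.norm_single]; simp
    rw [Real.norm_eq_abs] at e2
    calc _ ≤ ‖fderiv ℝ H x - fderiv ℝ H y‖ * ‖(Pi.single j 1 : Fin d → ℝ)‖ := e2
      _ ≤ ‖fderiv ℝ H x - fderiv ℝ H y‖ * 1 := mul_le_mul_of_nonneg_left e3 (norm_nonneg _)
      _ ≤ K * ‖x - y‖ := by rw [mul_one]; exact hK x y
  refine (Finset.sum_le_sum fun j _ => h1 j).trans ?_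
  rw [Finset.sum_const, Finset.card_univ, Fintype.card_fin, nsmul_eq_mul]
  exact le_of_eq (by ring)

end

end Pool.Agent.Helper72.FC
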