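import Pool.Agent.Helper72.FC.Slope
import Pool.Agent.Helper72.FC.HL

/-! # Smoothing Lipschitz functions on a space that is approximable by cubes -/

namespace Pool.Agent.Helper72.FC

open Filter Topology ContinuousLinearMap

set_option linter.unusedSectionVars false

noncomputable section

/-- Pointwise approximation of the identity by contractions through finite-dimensional `ℓ_∞`
spaces. -/
structure CubeApprox (E : Type) [NormedAddCommGroup E] [NormedSpace ℝ E] where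
  dim : ℕ → ℕ
  π : (j : ℕ) → E → (Fin (dim j) → ℝ)
  J : (j : ℕ) → (Fin (dim j) → ℝ) → E
  π_lip : ∀ j x y, ‖π j x - π j y‖ ≤ ‖x - y‖
  J_lip : ∀ j x y, ‖J j x - J j y‖ ≤ ‖x - y‖
  π_zero : ∀ j, π j 0 = 0
  J_zero : ∀ j, J j 0 = 0
  lim : ∀ x, Tendsto (fun j => J j (π j x)) atTop (𝓝 x)

variable {E : Type} [NormedAddCommGroup E] [NormedSpace ℝ E] (X : CubeApprox E)

theorem pos_inv (j : ℕ) : (0:ℝ) < 1 / ((j:ℝ) + 1) := by positivity

/-- smoothing in the cube -/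
def inn (j : ℕ) (G : E → ℝ) : (Fin (X.dim j) → ℝ) → ℝ :=
  moll (X.dim j) (1 / ((j:ℝ) + 1)) (pos_inv j) (fun u => G (X.J j u))

/-- the smoothed function, with the radial cutoff -/
def sm (j : ℕ) (G : E → ℝ) (x : E) : ℝ := ze ((j:ℝ) + 1) x * inn X j G (X.π j x)

/-- its slope function -/
def sl (j : ℕ) (G : E → ℝ) (x : E) : ℝ := ze ((j:ℝ) + 1) x * slope1 (inn X j G) (X.π j x)

theorem one_le_j (j : ℕ) : (1:ℝ) ≤ (j:ℝ) + 1 := by
  have : (0:ℝ) ≤ j := Nat.cast_nonneg j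
  linarith

theorem lip_comp_J {a : ℝ} (ha : 0 ≤ a) {G : E → ℝ} (hG : Lip a G) (j : ℕ) :
    Lip a (fun u => G (X.J j u)) := fun u v =>
  (hG _ _).trans (mul_le_mul_of_nonneg_left (X.J_lip j u v) ha)

theorem inn_lip {a : ℝ} (ha : 0 ≤ a) {G : E → ℝ} (hG : Lip a G) (j : ℕ) : Lip a (inn X j G) :=
  moll_lip _ (lip_comp_J X ha hG j)

theorem g_lip {a : ℝ} (ha : 0 ≤ a) {G : E → ℝ} (hG : Lip a G) (j : ℕ) :
    Lip a (fun x => inn X j G (X.π j x)) := fun x y =>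
  (inn_lip X ha hG j _ _).trans (mul_le_mul_of_nonneg_left (X.π_lip j x y) ha)

theorem g_close {a : ℝ} (ha : 0 ≤ a) {G : E → ℝ} (hG : Lip a G) (j : ℕ) (x : E) :
    |inn X j G (X.π j x) - G (X.J j (X.π j x))| ≤ a * (1 / ((j:ℝ) + 1)) :=
  moll_close _ ha (lip_comp_J X ha hG j) _

theorem norm_Jπ (j : ℕ) (x : E) : ‖X.J j (X.π j x)‖ ≤ ‖x‖ := by
  have h1 := X.J_lip j (X.π j x) 0
  rw [X.J_zero, sub_zero, sub_zero] at h1
  have h2 := X.π_lip j x 0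
  rw [X.π_zero, sub_zero, sub_zero] at h2
  exact h1.trans h2

theorem g_size {a e : ℝ} (ha : 0 ≤ a) (he : 0 ≤ e) {G : E → ℝ} (hG : Lip a G)
    (hGe : ∀ x, |G x| ≤ e * ‖x‖) (j : ℕ) (x : E) :
    |inn X j G (X.π j x)| ≤ (e + a * (1 / ((j:ℝ) + 1))) * (1 + ‖x‖) := by
  have h1 := g_close X ha hG j x
  have h2 := hGe (X.J j (X.π j x))
  have h3 := norm_Jπ X j x
  have h4 : |inn X j G (X.π j x)| ≤ |inn X j G (X.π j x) - G (X.J j (X.π j x))| +
      |G (X.J j (X.π j x))| := by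
    have := abs_add_le (inn X j G (X.π j x) - G (X.J j (X.π j x))) (G (X.J j (X.π j x)))
    rwa [sub_add_cancel] at this
  have h5 : e * ‖X.J j (X.π j x)‖ ≤ e * ‖x‖ := mul_le_mul_of_nonneg_left h3 he
  have hx : 0 ≤ ‖x‖ := norm_nonneg x
  have h6 : 0 ≤ a * (1 / ((j:ℝ) + 1)) := mul_nonneg ha (pos_inv j).le
  nlinarith [mul_nonneg h6 hx]

theorem sm_size {a e : ℝ} (ha : 0 ≤ a) (he : 0 ≤ e) {G : E → ℝ} (hG : Lip a G)
    (hGe : ∀ x, |G x| ≤ e * ‖x‖) (j : ℕ) (x : E) :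
    |sm X j G x| ≤ (e + a * (1 / ((j:ℝ) + 1))) * (1 + ‖x‖) := by
  unfold sm
  rw [abs_mul]
  have h1 := abs_ze_le (one_le_j j) x
  have h2 := g_size X ha he hG hGe j x
  calc |ze ((j:ℝ) + 1) x| * |inn X j G (X.π j x)| ≤ 1 * |inn X j G (X.π j x)| :=
        mul_le_mul_of_nonneg_right h1 (abs_nonneg _)
    _ ≤ _ := by rw [one_mul]; exact h2

theorem sm_lip {a e : ℝ} (ha : 0 ≤ a) (he : 0 ≤ e) {G : E → ℝ} (hG : Lip a G)
    (hGe : ∀ x, |G x| ≤ e * ‖x‖) (j : ℕ) :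
    Lip (1 * a + 1 * (e + a * (1 / ((j:ℝ) + 1)))) (sm X j G) :=
  HL.lip_mul (ze_HL (one_le_j j)) (abs_ze_le (one_le_j j)) (g_lip X ha hG j)
    (g_size X ha he hG hGe j)

theorem inv_tendsto : Tendsto (fun j : ℕ => 1 / ((j:ℝ) + 1)) atTop (𝓝 0) :=
  tendsto_one_div_add_atTop_nhds_zero_nat

theorem g_tendsto {a : ℝ} (ha : 0 ≤ a) {G : E → ℝ} (hG : Lip a G) (x : E) :
    Tendsto (fun j => inn X j G (X.π j x)) atTop (𝓝 (G x)) := by
  have h1 : Tendsto (fun j => G (X.J j (X.π j x))) atTop (𝓝 (G x)) :=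
    (hG.continuous.tendsto x).comp (X.lim x)
  have h2 : Tendsto (fun j => inn X j G (X.π j x) - G (X.J j (X.π j x))) atTop (𝓝 0) := by
    apply squeeze_zero_norm (a := fun j : ℕ => a * (1 / ((j:ℝ) + 1)))
    · intro j; rw [Real.norm_eq_abs]; exact g_close X ha hG j x
    · simpa using inv_tendsto.const_mul a
  have h3 := h2.add h1
  simpa using h3

theorem sm_tendsto {a : ℝ} (ha : 0 ≤ a) {G : E → ℝ} (hG : Lip a G) (x : E) :
    Tendsto (fun j => sm X j G x) atTop (𝓝 (G x)) := by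
  have := (ze_tendsto x).mul (g_tendsto X ha hG x)
  rw [one_mul] at this
  exact this

theorem inn_diff {a : ℝ} (ha : 0 ≤ a) {G : E → ℝ} (hG : Lip a G) (j : ℕ) :
    Differentiable ℝ (inn X j G) := (moll_deriv _ (lip_comp_J X ha hG j)).1

theorem sl_nonneg (j : ℕ) (G : E → ℝ) (x : E) : 0 ≤ sl X j G x :=
  mul_nonneg (ze_nonneg (one_le_j j) x) (slope1_nonneg _ _)

theorem sl_le_slope1 (j : ℕ) (G : E → ℝ) (x : E) :
    sl X j G x ≤ slope1 (inn X j G) (X.π j x) := by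
  unfold sl
  calc _ ≤ 1 * slope1 (inn X j G) (X.π j x) :=
        mul_le_mul_of_nonneg_right (ze_le_one (one_le_j j) x) (slope1_nonneg _ _)
    _ = _ := one_mul _

theorem sl_le {a : ℝ} (ha : 0 ≤ a) {G : E → ℝ} (hG : Lip a G) (j : ℕ) (x : E) :
    sl X j G x ≤ a :=
  (sl_le_slope1 X j G x).trans (slope1_le ha (inn_lip X ha hG j) _)

theorem sl_HL {a : ℝ} (ha : 0 ≤ a) {G : E → ℝ} (hG : Lip a G) (j : ℕ) :
    ∃ Λ, 0 ≤ Λ ∧ HL Λ (sl X j G) := by
  obtain ⟨K, hK⟩ := (moll_deriv (pos_inv j) (lip_comp_J X ha hG j)).2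
  have hK' : ∀ x y, ‖fderiv ℝ (inn X j G) x - fderiv ℝ (inn X j G) y‖ ≤ |K| * ‖x - y‖ :=
    fun x y => (hK x y).trans (mul_le_mul_of_nonneg_right (le_abs_self K) (norm_nonneg _))
  have h1 : Lip ((X.dim j : ℝ) * |K|) (fun x => slope1 (inn X j G) (X.π j x)) := fun x y =>
    (slope1_lip hK' _ _).trans (mul_le_mul_of_nonneg_left (X.π_lip j x y) (by positivity))
  refine ⟨_, ?_, ze_mul_HL (one_le_j j) h1 (a := a) ?_⟩
  · have := one_le_j j
    positivity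
  · intro x
    rw [abs_of_nonneg (slope1_nonneg _ _)]
    exact slope1_le ha (inn_lip X ha hG j) _

theorem sm_slope {a e : ℝ} (ha : 0 ≤ a) (he : 0 ≤ e) {G : E → ℝ} (hG : Lip a G)
    (hGe : ∀ x, |G x| ≤ e * ‖x‖) (j : ℕ) (x : E) {ε : ℝ} (hε : 0 < ε) :
    ∀ᶠ y in 𝓝 x, |sm X j G y - sm X j G x| ≤
      (sl X j G x + (e + a * (1 / ((j:ℝ) + 1))) + ε) * ‖y - x‖ := by
  have hπ : Tendsto (X.π j) (𝓝 x) (𝓝 (X.π j x)) := by
    rw [tendsto_iff_norm_sub_tendsto_zero]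
    refine squeeze_zero (fun _ => norm_nonneg _) (fun y => X.π_lip j y x) ?_
    exact tendsto_iff_norm_sub_tendsto_zero.1 tendsto_id
  have h1 := hπ.eventually (slope_bound (inn_diff X ha hG j) (X.π j x) hε)
  filter_upwards [h1] with y hy
  have h2 := ze_HL (E := E) (one_le_j j) x y
  have h3 := g_size X ha he hG hGe j y
  set τ := e + a * (1 / ((j:ℝ) + 1)) with hτ
  have hτ0 : 0 ≤ τ := add_nonneg he (mul_nonneg ha (pos_inv j).le)
  have e1 : sm X j G y - sm X j G x = (ze ((j:ℝ)+1) y - ze ((j:ℝ)+1) x) * inn X j G (X.π j y) +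
      ze ((j:ℝ)+1) x * (inn X j G (X.π j y) - inn X j G (X.π j x)) := by
    unfold sm; ring
  have hsl : 0 ≤ slope1 (inn X j G) (X.π j x) := slope1_nonneg _ _
  have hn : 0 ≤ ‖y - x‖ := norm_nonneg _
  rw [e1]
  refine (abs_add_le _ _).trans ?_
  rw [abs_mul, abs_mul]
  have t1 : |ze ((j:ℝ)+1) y - ze ((j:ℝ)+1) x| * |inn X j G (X.π j y)| ≤ τ * ‖y - x‖ := by
    calc _ ≤ |ze ((j:ℝ)+1) y - ze ((j:ℝ)+1) x| * (τ * (1 + ‖y‖)) :=
          mul_le_mul_of_nonneg_left h3 (abs_nonneg _)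
      _ = τ * (|ze ((j:ℝ)+1) x - ze ((j:ℝ)+1) y| * (1 + ‖y‖)) := by
          rw [abs_sub_comm (ze ((j:ℝ)+1) y)]; ring
      _ ≤ τ * (1 * ‖x - y‖) := mul_le_mul_of_nonneg_left h2 hτ0
      _ = τ * ‖y - x‖ := by rw [one_mul, norm_sub_rev]
  have t2 : |ze ((j:ℝ)+1) x| * |inn X j G (X.π j y) - inn X j G (X.π j x)| ≤
      (sl X j G x + ε) * ‖y - x‖ := by
    rw [abs_of_nonneg (ze_nonneg (one_le_j j) x)]
    calc _ ≤ ze ((j:ℝ)+1) x * ((slope1 (inn X j G) (X.π j x) + ε) * ‖X.π j y - X.π j x‖) :=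
          mul_le_mul_of_nonneg_left hy (ze_nonneg (one_le_j j) x)
      _ ≤ ze ((j:ℝ)+1) x * ((slope1 (inn X j G) (X.π j x) + ε) * ‖y - x‖) := by
          apply mul_le_mul_of_nonneg_left _ (ze_nonneg (one_le_j j) x)
          exact mul_le_mul_of_nonneg_left (X.π_lip j y x) (by positivity)
      _ = (sl X j G x + ze ((j:ℝ)+1) x * ε) * ‖y - x‖ := by unfold sl; ring
      _ ≤ (sl X j G x + ε) * ‖y - x‖ := by
          apply mul_le_mul_of_nonneg_right _ hn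
          have := mul_le_mul_of_nonneg_right (ze_le_one (one_le_j j) x) hε.le
          linarith
  calc _ ≤ τ * ‖y - x‖ + (sl X j G x + ε) * ‖y - x‖ := add_le_add t1 t2
    _ = _ := by ring

/-- Counting steep functions at a point. -/
theorem sl_count {A : ℝ} (hA : 0 ≤ A) {a : ℝ} (ha : 0 ≤ a) (s : Finset ℕ) {G : ℕ → E → ℝ}
    (hG : ∀ k ∈ s, Lip a (G k))
    (hsum : ∀ σ : ℕ → ℝ, (∀ k, |σ k| ≤ 1) → Lip A (fun x => ∑ k ∈ s, σ k * G k x))
    (j : ℕ) (x : E) {η : ℝ} (hη : ∀ k ∈ s, η ≤ sl X j (G k) x) :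
    η * Real.sqrt s.card ≤ 2 * A := by
  apply count (X.dim j) s (fun k i => fderiv ℝ (inn X j (G k)) (X.π j x) (Pi.single i 1))
  · intro k hk
    exact (hη k hk).trans (sl_le_slope1 X j (G k) x)
  · intro σ hσ
    apply sum_fderiv_le s (fun k hk => inn_diff X ha (hG k hk) j) σ hA
    have e1 : (fun u => ∑ k ∈ s, σ k * inn X j (G k) u) =
        inn X j (fun x => ∑ k ∈ s, σ k * G k x) := by
      funext u
      unfold inn
      rw [moll_sum (pos_inv j) (C := fun _ => a) s σ (G := fun k u => G k (X.J j u))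
        (fun k hk => lip_comp_J X ha (hG k hk) j)]
    rw [e1]
    exact inn_lip X hA (hsum σ hσ) j

end

end Pool.Agent.Helper72.FC
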