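import Pool.Agent.Helper72.FC.Smooth

/-! # One step of the construction -/

namespace Pool.Agent.Helper72.FC

open Filter Topology ContinuousLinearMap

set_option linter.unusedSectionVars false

noncomputable section

variable {E F : Type} [NormedAddCommGroup E] [NormedSpace ℝ E]
    [NormedAddCommGroup F] [NormedSpace ℝ F] {δ : E → F}

/-- The standing data. -/
structure Dat (δ : E → F) (f : ℕ → E → ℝ) (ν : ℕ → F) (e A : ℕ → ℝ) (B1 : ℝ) : Prop where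
  he0 : ∀ k, 0 ≤ e k
  he : Tendsto e atTop (𝓝 0)
  hfe : ∀ k x, |f k x| ≤ e k * ‖x‖
  hA : ∀ n, 0 ≤ A n
  hfA : ∀ (s : Finset ℕ) (σ : ℕ → ℝ), (∀ k, |σ k| ≤ 1) →
    Lip (A s.card) (fun x => ∑ k ∈ s, σ k * f k x)
  hν : ∀ k, ‖ν k‖ ≤ B1

variable {f : ℕ → E → ℝ} {ν : ℕ → F} {e A : ℕ → ℝ} {B1 : ℝ}

theorem Dat.lip (H : Dat δ f ν e A B1) (k : ℕ) : Lip (A 1) (f k) := by
  have := H.hfA {k} (fun _ => 1) (by simp)
  simpa using this

theorem Dat.size (H : Dat δ f ν e A B1) (k : ℕ) (x : E) : |f k x| ≤ e k * (1 + ‖x‖) := by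
  have h1 := H.hfe k x
  have h2 := H.he0 k
  nlinarith

theorem Dat.B1_nonneg (H : Dat δ f ν e A B1) : 0 ≤ B1 := (norm_nonneg _).trans (H.hν 0)

theorem cutoff_lip (H : Dat δ f ν e A B1) {Θ : E → ℝ} {Λ : ℝ} (hΘ : HL Λ Θ)
    (hΘ1 : ∀ x, |Θ x| ≤ 1) (l : ℕ) :
    Lip (1 * A 1 + Λ * e l) (fun x => Θ x * f l x) :=
  hΘ.lip_mul hΘ1 (H.lip l) (H.size l)

/-- The pigeonhole estimate. -/
theorem pigeon (hF : IsFree E F δ) (H : Dat δ f ν e A B1) (C : Finset ℕ)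
    {Ψ : ℕ → E → ℝ} {Λ : ℕ → ℝ} (hΛ : ∀ k ∈ C, 0 ≤ Λ k) (hΨ : ∀ k ∈ C, HL (Λ k) (Ψ k))
    (hΨ1 : ∀ k ∈ C, ∀ x, |Ψ k x| ≤ 1)
    {M : ℝ} (hM : ∀ x, ∑ k ∈ C, |Ψ k x| ≤ M) (l : ℕ) :
    ∑ k ∈ C, |pair δ (fun x => Ψ k x * f l x) (ν l)| ≤
      (M * A 1 + (∑ k ∈ C, Λ k) * e l) * B1 := by
  classical
  set τ : ℕ → ℝ := fun k => if 0 ≤ pair δ (fun x => Ψ k x * f l x) (ν l) then 1 else -1 with hτ
  have hτabs : ∀ k, |τ k| ≤ 1 := by
    intro k; rw [hτ]; dsimp only; split_ifs <;> simp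
  have hτ1 : ∀ k, τ k * pair δ (fun x => Ψ k x * f l x) (ν l) =
      |pair δ (fun x => Ψ k x * f l x) (ν l)| := by
    intro k
    rw [hτ]; dsimp only
    split_ifs with h
    · rw [one_mul, abs_of_nonneg h]
    · rw [abs_of_neg (not_le.1 h)]; ring
  have hlip : ∀ k ∈ C, Lip (1 * A 1 + Λ k * e l) (fun x => Ψ k x * f l x) := fun k hk =>
    cutoff_lip H (hΨ k hk) (hΨ1 k hk) l
  have hW : HL (∑ k ∈ C, Λ k) (fun x => ∑ k ∈ C, τ k * Ψ k x) := by
    have := HL.sum C (Λ := Λ) (g := fun k x => τ k * Ψ k x) (fun k hk => by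
      have h1 := (hΨ k hk).comp (K := 1) zero_le_one (f := fun t => τ k * t) (fun s t => by
        rw [← mul_sub, abs_mul]
        exact mul_le_mul_of_nonneg_right (hτabs k) (abs_nonneg _))
      rwa [one_mul] at h1)
    exact this
  have hWM : ∀ x, |∑ k ∈ C, τ k * Ψ k x| ≤ M := fun x => by
    refine ((Finset.abs_sum_le_sum_abs _ _).trans (Finset.sum_le_sum fun k _ => ?_)).trans (hM x)
    rw [abs_mul]
    calc |τ k| * |Ψ k x| ≤ 1 * |Ψ k x| := mul_le_mul_of_nonneg_right (hτabs k) (abs_nonneg _)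
      _ = _ := one_mul _
  have hWl := hW.lip_mul hWM (H.lip l) (H.size l)
  have e1 : (fun x => (∑ k ∈ C, τ k * Ψ k x) * f l x) =
      (fun x => ∑ k ∈ C, τ k * (Ψ k x * f l x)) := by
    funext x; rw [Finset.sum_mul]; exact Finset.sum_congr rfl fun k _ => by ring
  have e2 : pair δ (fun x => ∑ k ∈ C, τ k * (Ψ k x * f l x)) (ν l) =
      ∑ k ∈ C, |pair δ (fun x => Ψ k x * f l x) (ν l)| := by
    rw [pair_sum hF C (C := fun k => |τ k| * (1 * A 1 + Λ k * e l))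
      (fun k hk => (hlip k hk).const_mul (τ k)), _root_.sum_apply]
    refine Finset.sum_congr rfl fun k hk => ?_
    rw [pair_const_mul hF (hlip k hk), _root_.smul_apply, smul_eq_mul]
    exact hτ1 k
  rw [← e2, ← e1]
  have hMnn : 0 ≤ M := (Finset.sum_nonneg fun k _ => abs_nonneg (Ψ k 0)).trans (hM 0)
  have hC0 : 0 ≤ M * A 1 + (∑ k ∈ C, Λ k) * e l :=
    add_nonneg (mul_nonneg hMnn (H.hA 1)) (mul_nonneg (Finset.sum_nonneg hΛ) (H.he0 l))
  refine (le_abs_self _).trans ((abs_pair_le hF hC0 hWl (ν l)).trans ?_)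
  exact mul_le_mul_of_nonneg_left (H.hν l) hC0

/-- One step. -/
theorem stage (hF : IsFree E F δ) (X : CubeApprox E) (H : Dat δ f ν e A B1)
    {η : ℝ} (hη : 0 < η) {M : ℕ} (hM : ∀ n : ℕ, M < n → 2 * A n < η * Real.sqrt n)
    {Θ : E → ℝ} {Λ : ℝ} (hΛ : 0 ≤ Λ) (hΘ : HL Λ Θ) (hΘ0 : ∀ x, 0 ≤ Θ x) (hΘ1 : ∀ x, Θ x ≤ 1)
    {N : Set ℕ} (hN : N.Infinite) {c : ℝ}
    (hc : ∀ k ∈ N, c ≤ pair δ (fun x => Θ x * f k x) (ν k)) {ε : ℝ} (hε : 0 < ε) :
    ∃ κ ∈ N, ∃ (φ S : E → ℝ) (D : ℝ), Lip D φ ∧ c - ε ≤ pair δ φ (ν κ) ∧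
      (∀ x, 0 ≤ S x ∧ S x ≤ A 1) ∧
      (∀ x, ∀ ε' > 0, ∀ᶠ y in 𝓝 x, |φ y - φ x| ≤ (η + Θ x * S x + ε') * ‖y - x‖) ∧
      ∃ (Θ' : E → ℝ) (Λ' : ℝ), 0 ≤ Λ' ∧ HL Λ' Θ' ∧ (∀ x, 0 ≤ Θ' x) ∧ (∀ x, Θ' x ≤ 1) ∧
        (∀ x, Θ x = 0 → Θ' x = 0) ∧ (∀ x, Θ' x ≠ 0 → S x ≤ 2 * η) ∧
        ∃ N' : Set ℕ, N' ⊆ N ∧ N'.Infinite ∧ κ ∉ N' ∧
          ∀ l ∈ N', c - ε ≤ pair δ (fun x => Θ' x * f l x) (ν l) := by
  classical
  have ha := H.hA 1
  have hB1 := H.B1_nonneg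
  have hΘabs : ∀ x, |Θ x| ≤ 1 := fun x => by rw [abs_of_nonneg (hΘ0 x)]; exact hΘ1 x
  -- number of candidates
  obtain ⟨m, hm⟩ := exists_nat_gt ((((M:ℝ) * A 1 + 1) * B1) / ε)
  have hmε : (((M:ℝ) * A 1 + 1) * B1) < m * ε := by rwa [div_lt_iff₀ hε] at hm
  -- threshold
  set τ : ℝ := η / (2 * (Λ + 1)) with hτdef
  have hτ : 0 < τ := by positivity
  have hτη : (Λ + 1) * (τ + τ) = η := by rw [hτdef]; field_simp; ring
  obtain ⟨K0, hK0⟩ : ∃ K0, ∀ k ≥ K0, e k ≤ τ := by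
    have := (H.he.eventually (gt_mem_nhds hτ))
    obtain ⟨K0, h⟩ := eventually_atTop.1 this
    exact ⟨K0, fun k hk => (h k hk).le⟩
  have hN0 : (N ∩ {k | K0 ≤ k}).Infinite := by
    intro hfin
    apply hN
    refine (hfin.union (Set.finite_lt_nat K0)).subset fun k hk => ?_
    rcases le_or_gt K0 k with h | h
    · exact Or.inl ⟨hk, h⟩
    · exact Or.inr h
  obtain ⟨C, hCsub, hCcard⟩ := hN0.exists_subset_card_eq m
  have hCN : ∀ k ∈ C, k ∈ N := fun k hk => (hCsub hk).1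
  have hCe : ∀ k ∈ C, e k ≤ τ := fun k hk => hK0 k (hCsub hk).2
  -- choice of the smoothing parameter
  obtain ⟨j, hj1, hj2⟩ : ∃ j : ℕ, A 1 * (1 / ((j:ℝ) + 1)) ≤ τ ∧ ∀ k ∈ C,
      c - ε ≤ pair δ (fun x => Θ x * sm X j (f k) x) (ν k) := by
    have h1 : ∀ᶠ j : ℕ in atTop, A 1 * (1 / ((j:ℝ) + 1)) < τ := by
      have h0 : Tendsto (fun j : ℕ => A 1 * (1 / ((j:ℝ) + 1))) atTop (𝓝 0) := by
        simpa using inv_tendsto.const_mul (A 1)
      exact h0.eventually (gt_mem_nhds hτ)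
    have h2 : ∀ᶠ j : ℕ in atTop, ∀ k ∈ C,
        c - ε ≤ pair δ (fun x => Θ x * sm X j (f k) x) (ν k) := by
      rw [Filter.eventually_all_finset]
      intro k hk
      have hlip : ∀ j, Lip (1 * (1 * A 1 + 1 * (e k + A 1)) + Λ * (e k + A 1))
          (fun x => Θ x * sm X j (f k) x) := by
        intro j
        have hinv : (1 / ((j:ℝ) + 1)) ≤ 1 := by
          rw [div_le_one (by positivity)]; exact one_le_j j
        have hle : e k + A 1 * (1 / ((j:ℝ) + 1)) ≤ e k + A 1 := by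
          have := mul_le_mul_of_nonneg_left hinv ha
          linarith
        apply hΘ.lip_mul hΘabs
        · refine (sm_lip X ha (H.he0 k) (H.lip k) (H.hfe k) j).mono ?_
          linarith
        · intro x
          refine (sm_size X ha (H.he0 k) (H.lip k) (H.hfe k) j x).trans ?_
          exact mul_le_mul_of_nonneg_right hle (by positivity)
      have hC0 : 0 ≤ (1 * (1 * A 1 + 1 * (e k + A 1)) + Λ * (e k + A 1)) := by
        have := H.he0 k
        positivity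
      have hlim : Lip (1 * (1 * A 1 + 1 * (e k + A 1)) + Λ * (e k + A 1))
          (fun x => Θ x * f k x) := by
        refine (cutoff_lip H hΘ hΘabs k).mono ?_
        have := H.he0 k
        nlinarith
      have h3 := pair_tendsto hF hC0 hlip hlim
        (fun x => (sm_tendsto X ha (H.lip k) x).const_mul (Θ x)) (ν k)
      have h4 : c - ε < pair δ (fun x => Θ x * f k x) (ν k) := by
        have := hc k (hCN k hk); linarith
      filter_upwards [h3.eventually (lt_mem_nhds h4)] with j hj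
      exact hj.le
    obtain ⟨j, hj⟩ := (h1.and h2).exists
    exact ⟨j, hj.1.le, hj.2⟩
  -- the cutoffs
  set χ : ℕ → E → ℝ := fun k x => cl01 (sl X j (f k) x / η - 1) with hχ
  have hχ0 : ∀ k x, 0 ≤ χ k x := fun k x => cl01_nonneg _
  have hχ1 : ∀ k x, χ k x ≤ 1 := fun k x => cl01_le_one _
  have hχabs : ∀ k x, |χ k x| ≤ 1 := fun k x => by rw [abs_of_nonneg (hχ0 k x)]; exact hχ1 k x
  have hχHL : ∀ k, ∃ L, 0 ≤ L ∧ HL L (χ k) := by
    intro k
    obtain ⟨L, hL0, hL⟩ := sl_HL X ha (H.lip k) j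
    refine ⟨1 / η * L, by positivity, hL.comp (by positivity) (f := fun t => cl01 (t / η - 1)) ?_⟩
    intro s t
    refine (cl01_lip _ _).trans (le_of_eq ?_)
    rw [show s / η - 1 - (t / η - 1) = 1 / η * (s - t) by ring, abs_mul,
      abs_of_pos (by positivity : 0 < 1 / η)]
  choose L hL0 hL using hχHL
  -- the localised cutoffs
  set Ψ : ℕ → E → ℝ := fun k x => χ k x * Θ x with hΨdef
  have hΨHL : ∀ k, HL (1 * L k + 1 * Λ) (Ψ k) := fun k => (hL k).mul hΘ (hχabs k) hΘabs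
  have hΨ1 : ∀ k x, |Ψ k x| ≤ 1 := fun k x => by
    rw [hΨdef]; dsimp only; rw [abs_mul]; exact mul_le_one₀ (hχabs k x) (abs_nonneg _) (hΘabs x)
  have hΨM : ∀ x, ∑ k ∈ C, |Ψ k x| ≤ M := by
    intro x
    set t := C.filter (fun k => η ≤ sl X j (f k) x) with ht
    have hcard : t.card ≤ M := by
      by_contra hcon
      push Not at hcon
      have h1 := hM _ hcon
      have h2 := sl_count X (H.hA t.card) ha t (fun k _ => H.lip k) (H.hfA t) j x (η := η)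
        (fun k hk => (Finset.mem_filter.1 hk).2)
      linarith
    have h1 : ∑ k ∈ C, |Ψ k x| ≤ ∑ k ∈ C, (if η ≤ sl X j (f k) x then (1:ℝ) else 0) := by
      refine Finset.sum_le_sum fun k _ => ?_
      split_ifs with h
      · exact hΨ1 k x
      · have : χ k x = 0 := by
          apply cl01_eq_zero
          have : sl X j (f k) x / η ≤ 1 := by rw [div_le_one hη]; linarith
          linarith
        rw [hΨdef]; dsimp only; rw [this]; simp
    refine h1.trans ?_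
    rw [← Finset.sum_filter, ← ht, Finset.sum_const, nsmul_eq_mul, mul_one]
    exact_mod_cast hcard
  -- pigeonhole for large l
  set ΛW := ∑ k ∈ C, (1 * L k + 1 * Λ) with hΛW
  have hΛW0 : 0 ≤ ΛW := Finset.sum_nonneg fun k _ => by have := hL0 k; linarith
  obtain ⟨L0, hL0'⟩ : ∃ L0, ∀ l ≥ L0, ΛW * e l ≤ 1 := by
    have h0 : Tendsto (fun l => ΛW * e l) atTop (𝓝 0) := by simpa using H.he.const_mul ΛW
    obtain ⟨L0, h⟩ := eventually_atTop.1 (h0.eventually (gt_mem_nhds (zero_lt_one' ℝ)))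
    exact ⟨L0, fun k hk => (h k hk).le⟩
  have hex : ∀ l ≥ L0, ∃ k ∈ C, |pair δ (fun x => Ψ k x * f l x) (ν l)| ≤ ε := by
    intro l hl
    by_contra hcon
    push Not at hcon
    have h1 := pigeon hF H C (fun k _ => by have := hL0 k; linarith) (fun k _ => hΨHL k)
      (fun k _ => hΨ1 k) hΨM l
    have h2 : (m:ℝ) * ε ≤ ∑ k ∈ C, |pair δ (fun x => Ψ k x * f l x) (ν l)| := by
      calc (m:ℝ) * ε = ∑ k ∈ C, ε := by rw [Finset.sum_const, hCcard, nsmul_eq_mul]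
        _ ≤ _ := Finset.sum_le_sum fun k hk => (hcon k hk).le
    have h3 : ((M:ℝ) * A 1 + ΛW * e l) * B1 ≤ ((M:ℝ) * A 1 + 1) * B1 := by
      apply mul_le_mul_of_nonneg_right _ hB1
      have := hL0' l hl
      linarith
    linarith
  -- the infinite set of good `l`
  set N1 : Set ℕ := N ∩ {l | L0 ≤ l} ∩ {l | l ∉ C} with hN1def
  have hN1 : N1.Infinite := by
    intro hfin
    apply hN
    refine ((hfin.union (Set.finite_lt_nat L0)).union C.finite_toSet).subset fun k hk => ?_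
    by_cases h2 : k ∈ C
    · exact Or.inr h2
    · rcases le_or_gt L0 k with h | h
      · exact Or.inl (Or.inl ⟨⟨hk, h⟩, h2⟩)
      · exact Or.inl (Or.inr h)
  obtain ⟨κ, hκC, hκinf⟩ : ∃ κ ∈ C,
      {l ∈ N1 | |pair δ (fun x => Ψ κ x * f l x) (ν l)| ≤ ε}.Infinite := by
    by_contra hcon
    push Not at hcon
    apply hN1
    refine (C.finite_toSet.biUnion (t := fun κ =>
      {l ∈ N1 | |pair δ (fun x => Ψ κ x * f l x) (ν l)| ≤ ε})
      (fun κ hκ => hcon κ hκ)).subset fun l hl => ?_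
    obtain ⟨k, hk, hkl⟩ := hex l hl.1.2
    exact Set.mem_biUnion (Finset.mem_coe.2 hk) ⟨hl, hkl⟩
  have hκN := hCN κ hκC
  have hDlip : ∀ j : ℕ, Lip (1 * (1 * A 1 + 1 * (e κ + A 1 * (1 / ((j:ℝ) + 1)))) +
      Λ * (e κ + A 1 * (1 / ((j:ℝ) + 1)))) (fun x => Θ x * sm X j (f κ) x) := fun j =>
    hΘ.lip_mul hΘabs (sm_lip X ha (H.he0 κ) (H.lip κ) (H.hfe κ) j)
      (sm_size X ha (H.he0 κ) (H.lip κ) (H.hfe κ) j)
  refine ⟨κ, hκN, fun x => Θ x * sm X j (f κ) x, sl X j (f κ), _, hDlip j, hj2 κ hκC,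
    fun x => ⟨sl_nonneg X j _ x, sl_le X ha (H.lip κ) j x⟩, ?_, ?_⟩
  · -- slope bound
    intro x ε' hε'
    have h1 := sm_slope X ha (H.he0 κ) (H.lip κ) (H.hfe κ) j x hε'
    filter_upwards [h1] with y hy
    have hn : 0 ≤ ‖y - x‖ := norm_nonneg _
    have hs := sl_nonneg X j (f κ) x
    set q := e κ + A 1 * (1 / ((j:ℝ) + 1)) with hq
    have hq0 : 0 ≤ q := add_nonneg (H.he0 κ) (mul_nonneg ha (pos_inv j).le)
    have hq2 : q ≤ τ + τ := add_le_add (hCe κ hκC) hj1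
    have e1 : Θ y * sm X j (f κ) y - Θ x * sm X j (f κ) x =
        (Θ y - Θ x) * sm X j (f κ) y + Θ x * (sm X j (f κ) y - sm X j (f κ) x) := by ring
    rw [e1]
    refine (abs_add_le _ _).trans ?_
    rw [abs_mul, abs_mul, abs_of_nonneg (hΘ0 x)]
    have t1 : |Θ y - Θ x| * |sm X j (f κ) y| ≤ Λ * q * ‖y - x‖ := by
      calc |Θ y - Θ x| * |sm X j (f κ) y| ≤ |Θ y - Θ x| * (q * (1 + ‖y‖)) :=
            mul_le_mul_of_nonneg_left (sm_size X ha (H.he0 κ) (H.lip κ) (H.hfe κ) j y)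
              (abs_nonneg _)
        _ = q * (|Θ x - Θ y| * (1 + ‖y‖)) := by rw [abs_sub_comm (Θ y)]; ring
        _ ≤ q * (Λ * ‖x - y‖) := mul_le_mul_of_nonneg_left (hΘ x y) hq0
        _ = Λ * q * ‖y - x‖ := by rw [norm_sub_rev]; ring
    have t2 : Θ x * |sm X j (f κ) y - sm X j (f κ) x| ≤
        (q + Θ x * sl X j (f κ) x + ε') * ‖y - x‖ := by
      calc _ ≤ Θ x * ((sl X j (f κ) x + q + ε') * ‖y - x‖) :=
            mul_le_mul_of_nonneg_left hy (hΘ0 x)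
        _ = (Θ x * sl X j (f κ) x + Θ x * (q + ε')) * ‖y - x‖ := by ring
        _ ≤ (q + Θ x * sl X j (f κ) x + ε') * ‖y - x‖ := by
            apply mul_le_mul_of_nonneg_right _ hn
            have := mul_le_mul_of_nonneg_right (hΘ1 x) (by positivity : 0 ≤ q + ε')
            linarith
    have t3 : (Λ + 1) * q ≤ η := by
      calc (Λ + 1) * q ≤ (Λ + 1) * (τ + τ) := mul_le_mul_of_nonneg_left hq2 (by linarith)
        _ = η := hτη
    calc _ ≤ Λ * q * ‖y - x‖ + (q + Θ x * sl X j (f κ) x + ε') * ‖y - x‖ := add_le_add t1 t2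
      _ = ((Λ + 1) * q + Θ x * sl X j (f κ) x + ε') * ‖y - x‖ := by ring
      _ ≤ _ := mul_le_mul_of_nonneg_right (by linarith) hn
  · -- new cutoff
    have h1mχ : HL (1 * L κ) (fun x => 1 - χ κ x) :=
      (hL κ).comp zero_le_one (f := fun t => 1 - t) (fun s t => by
        rw [show 1 - s - (1 - t) = -(s - t) by ring, abs_neg, one_mul])
    refine ⟨fun x => Θ x * (1 - χ κ x), 1 * Λ + 1 * (1 * L κ), ?_,
      hΘ.mul h1mχ hΘabs (fun x => ?_), ?_, ?_, ?_, ?_,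
      {l ∈ N1 | |pair δ (fun x => Ψ κ x * f l x) (ν l)| ≤ ε}, ?_, hκinf, ?_, ?_⟩
    · have := hL0 κ; linarith
    · rw [abs_of_nonneg (by linarith [hχ1 κ x])]; linarith [hχ0 κ x]
    · intro x; exact mul_nonneg (hΘ0 x) (by linarith [hχ1 κ x])
    · intro x
      exact mul_le_one₀ (hΘ1 x) (by linarith [hχ1 κ x]) (by linarith [hχ0 κ x])
    · intro x hx; simp [hx]
    · intro x hx
      by_contra hcon
      push Not at hcon
      apply hx
      have : χ κ x = 1 := by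
        apply cl01_eq_one
        have : 2 ≤ sl X j (f κ) x / η := by rw [le_div_iff₀ hη]; exact hcon.le
        linarith
      show Θ x * (1 - χ κ x) = 0
      rw [this]; ring
    · intro l hl; exact hl.1.1.1
    · intro h; exact h.1.2 hκC
    · intro l hl
      have h1 := hc l hl.1.1.1
      have h2 := (abs_le.1 hl.2).2
      have e1 : (fun x => Θ x * (1 - χ κ x) * f l x) =
          (fun x => Θ x * f l x - Ψ κ x * f l x) := by
        funext x; rw [hΨdef]; ring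
      rw [e1, pair_sub hF (cutoff_lip H hΘ hΘabs l) (cutoff_lip H (hΨHL κ) (hΨ1 κ) l),
        _root_.sub_apply]
      linarith

end

end Pool.Agent.Helper72.FC
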